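import Mathlib

set_option autoImplicit false

/-!
# The achievement set of the planar series with terms (-1)^n (1/n, 1/sqrt n) is the plane
-/

namespace Pool.Agent.H51.Achieve

open Filter Topology

noncomputable section

/-- A sequence that decreases by `c n` or drops below a null level tends to be small, when `∑ c n`
diverges. -/
lemma eventually_small (z c : ℕ → ℝ) (N : ℕ) (ε : ℝ)
    (hz : ∀ n, 0 ≤ z n)
    (hc : ∀ n, 0 ≤ c n)
    (hdiv : Tendsto (fun n => ∑ k ∈ Finset.range n, c k) atTop atTop)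
    (hstep : ∀ n, N ≤ n → z (n + 1) ≤ max (z n - c n) ε) :
    ∃ M, ∀ n, M ≤ n → z n ≤ ε := by
  -- there is a time at which z is at most ε
  have h1 : ∃ n, N ≤ n ∧ z n ≤ ε := by
    by_contra hcon
    push Not at hcon
    have h2 : ∀ n, N ≤ n → z (n + 1) ≤ z n - c n := by
      intro n hn
      rcases le_max_iff.1 (hstep n hn) with h | h
      · exact h
      · exact absurd h (not_le.2 (hcon (n + 1) (by omega)))
    have h3 : ∀ m, z (N + m) + ∑ k ∈ Finset.range (N + m), c k
        ≤ z N + ∑ k ∈ Finset.range N, c k := by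
      intro m
      induction m with
      | zero => simp
      | succ m ih =>
        have h4 := h2 (N + m) (by omega)
        rw [← Nat.add_assoc, Finset.sum_range_succ]
        linarith
    obtain ⟨M, hM⟩ := (hdiv.eventually_ge_atTop (z N + ∑ k ∈ Finset.range N, c k + 1)).exists_forall_of_atTop
    have h5 := hM (N + M) (by omega)
    have h6 := h3 M
    have h7 := hz (N + M)
    linarith
  obtain ⟨M, hM1, hM2⟩ := h1
  refine ⟨M, ?_⟩
  intro n hn
  induction n, hn using Nat.le_induction with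
  | base => exact hM2
  | succ n hn ih =>
    have h := hstep n (by omega)
    have h8 : z n - c n ≤ ε := by
      have := hc n
      linarith
    exact h.trans (max_le h8 le_rfl)

/-- `h n = sqrt (n+1) / sqrt n - 1` at `n + 1`. -/
def hh (n : ℕ) : ℝ := Real.sqrt ((n : ℝ) + 2) / Real.sqrt ((n : ℝ) + 1) - 1

lemma hh_pos (n : ℕ) : 0 < hh n := by
  unfold hh
  rw [sub_pos, one_lt_div (by positivity)]
  exact Real.sqrt_lt_sqrt (by positivity) (by linarith)

lemma hh_le (n : ℕ) : hh n ≤ 1 / (2 * ((n : ℝ) + 1)) := by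
  unfold hh
  have h1 : (0 : ℝ) < (n : ℝ) + 1 := by positivity
  rw [← Real.sqrt_div (by positivity), sub_le_iff_le_add, Real.sqrt_le_left (by positivity)]
  have h2 : ((n : ℝ) + 2) / ((n : ℝ) + 1) = 1 + 1 / ((n : ℝ) + 1) := by
    field_simp
    ring
  rw [h2]
  have h3 : (1 : ℝ) / (2 * ((n : ℝ) + 1)) = (1 / ((n : ℝ) + 1)) / 2 := by
    field_simp
  rw [h3]
  nlinarith [sq_nonneg (1 / ((n : ℝ) + 1))]

lemma hh_le_half (n : ℕ) : hh n ≤ 1 / 2 := by
  refine (hh_le n).trans ?_
  rw [div_le_div_iff₀ (by positivity) (by norm_num)]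
  have : (0 : ℝ) ≤ n := Nat.cast_nonneg n
  linarith

lemma le_hh (n : ℕ) : 1 / (4 * ((n : ℝ) + 1)) ≤ hh n := by
  unfold hh
  have h1 : (0 : ℝ) < (n : ℝ) + 1 := by positivity
  rw [← Real.sqrt_div (by positivity), le_sub_iff_add_le, Real.le_sqrt' (by positivity)]
  have h2 : ((n : ℝ) + 2) / ((n : ℝ) + 1) = 1 + 1 / ((n : ℝ) + 1) := by
    field_simp
    ring
  rw [h2]
  have h3 : (1 : ℝ) / (4 * ((n : ℝ) + 1)) = (1 / ((n : ℝ) + 1)) / 4 := by
    field_simp
  rw [h3]
  have h4 : 0 < 1 / ((n : ℝ) + 1) := by positivity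
  have h5 : 1 / ((n : ℝ) + 1) ≤ 1 := by
    rw [div_le_one h1]
    have : (0 : ℝ) ≤ n := Nat.cast_nonneg n
    linarith
  nlinarith


/-- The step size at step `n + 1`. -/
def w (n : ℕ) : ℝ := 1 / Real.sqrt ((n : ℝ) + 1)

lemma w_pos (n : ℕ) : 0 < w n := by
  unfold w
  positivity

lemma w_sq (n : ℕ) : w n * w n = 1 / ((n : ℝ) + 1) := by
  unfold w
  rw [div_mul_div_comm, Real.mul_self_sqrt (by positivity), one_mul]

lemma w_anti {m n : ℕ} (h : m ≤ n) : w n ≤ w m := by
  unfold w
  apply one_div_le_one_div_of_le (by positivity)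
  apply Real.sqrt_le_sqrt
  have : (m : ℝ) ≤ n := by exact_mod_cast h
  linarith

lemma hh_le_w (n : ℕ) : hh n ≤ w n * w n / 2 := by
  refine (hh_le n).trans ?_
  rw [w_sq]
  apply le_of_eq
  field_simp

lemma hh_eq (n : ℕ) : hh n = Real.sqrt ((n : ℝ) + 2) * (w n - w (n + 1)) := by
  unfold hh w
  have h : Real.sqrt ((n : ℝ) + 2) ≠ 0 := by positivity
  have h2 : (((n + 1 : ℕ) : ℝ) + 1) = (n : ℝ) + 2 := by
    push_cast
    ring
  rw [h2]
  field_simp

lemma tendsto_w : Tendsto w atTop (𝓝 0) := by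
  have h1 : Tendsto (fun n : ℕ => Real.sqrt ((n : ℝ) + 1)) atTop atTop := by
    apply Real.tendsto_sqrt_atTop.comp
    exact tendsto_atTop_add_const_right _ _ tendsto_natCast_atTop_atTop
  have h2 := h1.inv_tendsto_atTop
  refine h2.congr ?_
  intro n
  simp [w]

lemma sum_inv_tendsto (c : ℝ) (hc : 0 < c) :
    Tendsto (fun n => ∑ k ∈ Finset.range n, c * (1 / ((k : ℝ) + 1))) atTop atTop := by
  have h := Real.tendsto_sum_range_one_div_nat_succ_atTop
  have h2 := h.const_mul_atTop hc
  refine h2.congr ?_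
  intro n
  rw [Finset.mul_sum]

lemma sum_hh_tendsto (c : ℝ) (hc : 0 < c) :
    Tendsto (fun n => ∑ k ∈ Finset.range n, c * hh k) atTop atTop := by
  refine tendsto_atTop_mono ?_ (sum_inv_tendsto (c / 4) (by positivity))
  intro n
  apply Finset.sum_le_sum
  intro k _
  have h := le_hh k
  have h2 : c / 4 * (1 / ((k : ℝ) + 1)) = c * (1 / (4 * ((k : ℝ) + 1))) := by
    field_simp
  rw [h2]
  exact mul_le_mul_of_nonneg_left h hc.le

lemma sum_w_tendsto (c : ℝ) (hc : 0 < c) :
    Tendsto (fun n => ∑ k ∈ Finset.range n, c * w k) atTop atTop := by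
  refine tendsto_atTop_mono ?_ (sum_inv_tendsto c hc)
  intro n
  apply Finset.sum_le_sum
  intro k _
  apply mul_le_mul_of_nonneg_left _ hc.le
  rw [← w_sq]
  have h1 : w k ≤ 1 := by
    unfold w
    rw [div_le_one (by positivity), Real.one_le_sqrt]
    have : (0 : ℝ) ≤ k := Nat.cast_nonneg k
    linarith
  exact mul_le_of_le_one_right (w_pos k).le h1

/-- The sign of step `n + 1`. -/
def sg (n : ℕ) : ℝ := (-1) ^ (n + 1)

lemma sg_cases (n : ℕ) : sg n = 1 ∧ sg (n + 1) = -1 ∨ sg n = -1 ∧ sg (n + 1) = 1 := by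
  unfold sg
  rcases neg_one_pow_eq_or ℝ (n + 1) with h | h
  · left
    refine ⟨h, ?_⟩
    rw [pow_succ, h]
    norm_num
  · right
    refine ⟨h, ?_⟩
    rw [pow_succ, h]
    norm_num

open Classical in
/-- The greedy correction at step `n + 1`. -/
def corr (n : ℕ) (E : ℝ) : ℝ := if sg n * E < 0 then sg n * w n else 0

open Classical in
/-- The potential. -/
def pot (n : ℕ) (E : ℝ) : ℝ := |E| + if sg n * E < 0 then 0 else w n / 2

lemma pot_nonneg (n : ℕ) (E : ℝ) : 0 ≤ pot n E := by
  unfold pot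
  have := w_pos n
  have := abs_nonneg E
  split_ifs <;> linarith

lemma abs_le_pot (n : ℕ) (E : ℝ) : |E| ≤ pot n E := by
  unfold pot
  have := w_pos n
  split_ifs <;> linarith

lemma pot_le (n : ℕ) (E : ℝ) : pot n E ≤ |E| + w n / 2 := by
  unfold pot
  have := w_pos n
  split_ifs <;> linarith

lemma abs_corr_le (n : ℕ) (E : ℝ) : |E + corr n E| ≤ max |E| (w n) := by
  unfold corr
  have hw := w_pos n
  split_ifs with h
  · rcases sg_cases n with ⟨h1, _⟩ | ⟨h1, _⟩
    · rw [h1] at h ⊢
      have hE : E < 0 := by linarith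
      rw [abs_of_neg hE, abs_le]
      constructor
      · have := le_max_left (-E) (w n)
        linarith
      · have := le_max_right (-E) (w n)
        linarith
    · rw [h1] at h ⊢
      have hE : 0 < E := by linarith
      rw [abs_of_pos hE, abs_le]
      constructor
      · have := le_max_right E (w n)
        linarith
      · have := le_max_left E (w n)
        linarith
  · rw [add_zero]
    exact le_max_left _ _

/-- The potential decreases. -/
lemma pot_step (n : ℕ) (E E' : ℝ) (h : |E' - (E + corr n E)| ≤ w n / 4) :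
    pot (n + 1) E' ≤ max (pot n E - w n / 4) (2 * w n) := by
  have hw := w_pos n
  have hw1 := w_pos (n + 1)
  have hw2 : w (n + 1) ≤ w n := w_anti (Nat.le_succ n)
  rw [abs_le] at h
  obtain ⟨h1, h2⟩ := h
  by_cases hm : sg n * E < 0
  · -- the step is used
    have hc : corr n E = sg n * w n := by
      unfold corr
      rw [if_pos hm]
    have hp : pot n E = |E| := by
      unfold pot
      rw [if_pos hm, add_zero]
    rw [hc] at h1 h2
    rw [hp]
    have h3 := pot_le (n + 1) E'
    rcases sg_cases n with ⟨hs, _⟩ | ⟨hs, _⟩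
    · rw [hs] at h1 h2 hm
      have hE : E < 0 := by linarith
      rw [abs_of_neg hE]
      rcases le_total (w n) (-E) with hlarge | hsmall
      · refine le_max_of_le_left ?_
        have : |E'| ≤ -E - w n + w n / 4 := by
          rw [abs_le]
          constructor <;> linarith
        linarith
      · refine le_max_of_le_right ?_
        have : |E'| ≤ w n + w n / 4 := by
          rw [abs_le]
          constructor <;> linarith
        linarith
    · rw [hs] at h1 h2 hm
      have hE : 0 < E := by linarith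
      rw [abs_of_pos hE]
      rcases le_total (w n) E with hlarge | hsmall
      · refine le_max_of_le_left ?_
        have : |E'| ≤ E - w n + w n / 4 := by
          rw [abs_le]
          constructor <;> linarith
        linarith
      · refine le_max_of_le_right ?_
        have : |E'| ≤ w n + w n / 4 := by
          rw [abs_le]
          constructor <;> linarith
        linarith
  · -- the step is not used
    have hc : corr n E = 0 := by
      unfold corr
      rw [if_neg hm]
    have hp : pot n E = |E| + w n / 2 := by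
      unfold pot
      rw [if_neg hm]
    rw [hc, add_zero] at h1 h2
    rw [hp]
    by_cases hm2 : sg (n + 1) * E' < 0
    · refine le_max_of_le_left ?_
      have hp2 : pot (n + 1) E' = |E'| := by
        unfold pot
        rw [if_pos hm2, add_zero]
      rw [hp2]
      have h3 : |E'| ≤ |E| + w n / 4 := by
        have h4 : |E' - E| ≤ w n / 4 := abs_le.2 ⟨h1, h2⟩
        have h5 := abs_sub_abs_le_abs_sub E' E
        linarith
      linarith
    · refine le_max_of_le_right ?_
      have h3 := pot_le (n + 1) E'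
      have h4 : |E'| ≤ w n / 4 := by
        rcases sg_cases n with ⟨hs, hs'⟩ | ⟨hs, hs'⟩
        · rw [hs] at hm
          rw [hs'] at hm2
          rw [abs_le]
          constructor <;> linarith
        · rw [hs] at hm
          rw [hs'] at hm2
          rw [abs_le]
          constructor <;> linarith
      linarith

/-- The target that the second coordinate follows. -/
def G (ρ : ℕ → ℝ) (n : ℕ) : ℝ := 2 * Real.sqrt ((n : ℝ) + 1) * ρ n

/-- The tracking error. -/
def E (r ρ : ℕ → ℝ) (n : ℕ) : ℝ := r n - G ρ n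

/-- Greedy dynamics from time `N` on. -/
structure Dyn (r ρ : ℕ → ℝ) (N : ℕ) : Prop where
  hr : ∀ n, N ≤ n → r (n + 1) = r n + corr n (E r ρ n)
  hρ : ∀ n, N ≤ n → ρ (n + 1) = ρ n - r (n + 1) * (w n - w (n + 1))

lemma G_succ {r ρ : ℕ → ℝ} {N : ℕ} (hD : Dyn r ρ N) (n : ℕ) (hn : N ≤ n) :
    G ρ (n + 1) = (1 - hh n) * G ρ n - 2 * hh n * (E r ρ n + corr n (E r ρ n)) := by
  have h1 : Real.sqrt ((n : ℝ) + 2) = (1 + hh n) * Real.sqrt ((n : ℝ) + 1) := by
    unfold hh
    have : Real.sqrt ((n : ℝ) + 1) ≠ 0 := by positivity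
    field_simp
    ring
  have h2 : G ρ (n + 1) = 2 * Real.sqrt ((n : ℝ) + 2) * ρ (n + 1) := by
    unfold G
    have : (((n + 1 : ℕ) : ℝ) + 1) = (n : ℝ) + 2 := by
      push_cast
      ring
    rw [this]
  have h3 : r (n + 1) = G ρ n + (E r ρ n + corr n (E r ρ n)) := by
    have h4 := hD.hr n hn
    rw [h4]
    unfold E
    ring
  rw [h2, hD.hρ n hn, mul_sub]
  have h5 : 2 * Real.sqrt ((n : ℝ) + 2) * (r (n + 1) * (w n - w (n + 1)))
      = 2 * hh n * r (n + 1) := by
    rw [hh_eq]
    ring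
  rw [h5, h3]
  have h6 : 2 * Real.sqrt ((n : ℝ) + 2) * ρ n = (1 + hh n) * G ρ n := by
    rw [h1]
    unfold G
    ring
  rw [h6]
  ring

lemma E_succ {r ρ : ℕ → ℝ} {N : ℕ} (hD : Dyn r ρ N) (n : ℕ) (hn : N ≤ n) :
    E r ρ (n + 1) - (E r ρ n + corr n (E r ρ n))
      = hh n * (G ρ n + 2 * (E r ρ n + corr n (E r ρ n))) := by
  have h3 : r (n + 1) = G ρ n + (E r ρ n + corr n (E r ρ n)) := by
    have h4 := hD.hr n hn
    rw [h4]
    unfold E
    ring
  have h1 : E r ρ (n + 1) = r (n + 1) - G ρ (n + 1) := rfl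
  rw [h1, G_succ hD n hn, h3]
  ring

/-- The invariant region. -/
lemma invariant {r ρ : ℕ → ℝ} {N : ℕ} (hD : Dyn r ρ N) (hN : 16 * w N ≤ 1 / w N)
    (hG : |G ρ N| ≤ 1 / (4 * w N)) (hE : pot N (E r ρ N) ≤ 1 / (8 * w N)) (n : ℕ) (hn : N ≤ n) :
    |G ρ n| ≤ 1 / (4 * w N) ∧ pot n (E r ρ n) ≤ 1 / (8 * w N) ∧
      |E r ρ (n + 1) - (E r ρ n + corr n (E r ρ n))| ≤ w n / 4 := by
  have hwN := w_pos N
  set B := 1 / (4 * w N) with hB
  have hB2 : 1 / (8 * w N) = B / 2 := by
    rw [hB]
    field_simp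
    norm_num
  have hwB : 4 * w N ≤ B := by
    rw [hB]
    rw [le_div_iff₀ (by positivity)]
    rw [le_div_iff₀ hwN] at hN
    linarith
  rw [hB2] at hE ⊢
  -- the drift bound
  have drift : ∀ n, N ≤ n → |G ρ n| ≤ B → pot n (E r ρ n) ≤ B / 2 →
      |E r ρ n + corr n (E r ρ n)| ≤ B / 2 ∧
      |E r ρ (n + 1) - (E r ρ n + corr n (E r ρ n))| ≤ w n / 4 := by
    intro n hn h1 h2
    have hw := w_pos n
    have hw' : w n ≤ w N := w_anti hn
    have h3 : |E r ρ n + corr n (E r ρ n)| ≤ B / 2 := by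
      refine (abs_corr_le n _).trans (max_le ((abs_le_pot n _).trans h2) ?_)
      linarith
    refine ⟨h3, ?_⟩
    rw [E_succ hD n hn, abs_mul, abs_of_pos (hh_pos n)]
    have h4 : |G ρ n + 2 * (E r ρ n + corr n (E r ρ n))| ≤ 2 * B := by
      refine (abs_add_le _ _).trans ?_
      rw [abs_mul, abs_of_pos (by norm_num : (0 : ℝ) < 2)]
      linarith
    have h5 : hh n * |G ρ n + 2 * (E r ρ n + corr n (E r ρ n))| ≤ (w n * w n / 2) * (2 * B) :=
      mul_le_mul (hh_le_w n) h4 (abs_nonneg _) (by positivity)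
    refine h5.trans ?_
    have h6 : w n * B ≤ 1 / 4 := by
      rw [hB]
      rw [mul_one_div, div_le_div_iff₀ (by positivity) (by norm_num)]
      linarith
    nlinarith
  induction n, hn using Nat.le_induction with
  | base => exact ⟨hG, hE, (drift N le_rfl hG hE).2⟩
  | succ n hn ih =>
    obtain ⟨h1, h2, h3⟩ := ih
    have hw := w_pos n
    have hw' : w n ≤ w N := w_anti hn
    have h4 := (drift n hn h1 h2).1
    have h5 : |G ρ (n + 1)| ≤ B := by
      rw [G_succ hD n hn]
      have hh1 := hh_pos n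
      have hh2 := hh_le_half n
      refine (abs_sub _ _).trans ?_
      rw [abs_mul, abs_mul, abs_of_nonneg (by linarith : 0 ≤ 1 - hh n),
        abs_of_pos (by linarith : 0 < 2 * hh n)]
      have h6 : (1 - hh n) * |G ρ n| ≤ (1 - hh n) * B :=
        mul_le_mul_of_nonneg_left h1 (by linarith)
      have h7 : 2 * hh n * |E r ρ n + corr n (E r ρ n)| ≤ 2 * hh n * (B / 2) :=
        mul_le_mul_of_nonneg_left h4 (by linarith)
      linarith
    have h6 : pot (n + 1) (E r ρ (n + 1)) ≤ B / 2 := by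
      refine (pot_step n _ _ h3).trans (max_le ?_ ?_) <;> linarith
    exact ⟨h5, h6, (drift (n + 1) (by omega) h5 h6).2⟩


/-- Convergence of the greedy dynamics. -/
lemma converge {r ρ : ℕ → ℝ} {N : ℕ} (hD : Dyn r ρ N) (hN : 16 * w N ≤ 1 / w N)
    (hG : |G ρ N| ≤ 1 / (4 * w N)) (hE : pot N (E r ρ N) ≤ 1 / (8 * w N)) :
    Tendsto r atTop (𝓝 0) ∧ Tendsto ρ atTop (𝓝 0) := by
  have hinv := invariant hD hN hG hE
  -- the potential tends to zero
  have hpot : ∀ ε, 0 < ε → ∃ M, N ≤ M ∧ ∀ n, M ≤ n → pot n (E r ρ n) ≤ ε := by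
    intro ε hε
    obtain ⟨K, hK⟩ := (tendsto_w.eventually_lt_const (by positivity : 0 < ε / 2)).exists_forall_of_atTop
    obtain ⟨M, hM⟩ := eventually_small (fun n => pot n (E r ρ n)) (fun n => 1 / 4 * w n) (max N K) ε
      (fun n => pot_nonneg _ _) (fun n => by have := w_pos n; positivity)
      (sum_w_tendsto (1 / 4) (by norm_num)) (by
        intro n hn
        have h1 := hinv n (le_trans (le_max_left _ _) hn)
        have h2 := pot_step n _ _ h1.2.2
        refine h2.trans (max_le_max (by linarith) ?_)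
        have h3 := hK n (le_trans (le_max_right _ _) hn)
        linarith)
    exact ⟨max N M, le_max_left _ _, fun n hn => hM n (le_trans (le_max_right _ _) hn)⟩
  have hEt : ∀ ε, 0 < ε → ∃ M, N ≤ M ∧ ∀ n, M ≤ n →
      |E r ρ n + corr n (E r ρ n)| ≤ ε ∧ |E r ρ n| ≤ ε := by
    intro ε hε
    obtain ⟨M, hNM, hM⟩ := hpot ε hε
    obtain ⟨K, hK⟩ := (tendsto_w.eventually_lt_const hε).exists_forall_of_atTop
    refine ⟨max M K, le_trans hNM (le_max_left _ _), fun n hn => ?_⟩
    have h1 := hM n (le_trans (le_max_left _ _) hn)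
    have h2 := hK n (le_trans (le_max_right _ _) hn)
    refine ⟨(abs_corr_le n _).trans (max_le ((abs_le_pot n _).trans h1) h2.le), ?_⟩
    exact (abs_le_pot n _).trans h1
  have hGt : ∀ ε, 0 < ε → ∃ M, ∀ n, M ≤ n → |G ρ n| ≤ ε := by
    intro ε hε
    obtain ⟨K, hNK, hK⟩ := hEt (ε / 4) (by positivity)
    refine eventually_small (fun n => |G ρ n|) (fun n => ε / 2 * hh n) K ε
      (fun n => abs_nonneg _) (fun n => by have := hh_pos n; positivity)
      (sum_hh_tendsto (ε / 2) (by positivity)) ?_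
    intro n hn
    have h1 := (hK n hn).1
    have hh1 := hh_pos n
    have hh2 := hh_le_half n
    have h2 : |G ρ (n + 1)| ≤ (1 - hh n) * |G ρ n| + hh n * (ε / 2) := by
      rw [G_succ hD n (hNK.trans hn)]
      refine (abs_sub _ _).trans ?_
      rw [abs_mul, abs_mul, abs_of_nonneg (by linarith : 0 ≤ 1 - hh n),
        abs_of_pos (by linarith : 0 < 2 * hh n)]
      have h7 : 2 * hh n * |E r ρ n + corr n (E r ρ n)| ≤ 2 * hh n * (ε / 4) :=
        mul_le_mul_of_nonneg_left h1 (by linarith)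
      linarith
    rcases le_total |G ρ n| ε with h | h
    · refine le_max_of_le_right (h2.trans ?_)
      nlinarith
    · refine le_max_of_le_left (h2.trans ?_)
      nlinarith
  have hGt' : Tendsto (G ρ) atTop (𝓝 0) := by
    rw [Metric.tendsto_atTop]
    intro ε hε
    obtain ⟨M, hM⟩ := hGt (ε / 2) (by positivity)
    refine ⟨M, fun n hn => ?_⟩
    rw [Real.dist_eq, sub_zero]
    have := hM n hn
    linarith
  have hEt' : Tendsto (E r ρ) atTop (𝓝 0) := by
    rw [Metric.tendsto_atTop]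
    intro ε hε
    obtain ⟨M, _, hM⟩ := hEt (ε / 2) (by positivity)
    refine ⟨M, fun n hn => ?_⟩
    rw [Real.dist_eq, sub_zero]
    have := (hM n hn).2
    linarith
  constructor
  · have h1 : r = fun n => E r ρ n + G ρ n := by
      funext n
      unfold E
      ring
    rw [h1]
    simpa using hEt'.add hGt'
  · have h1 : ρ = fun n => G ρ n * (w n / 2) := by
      funext n
      unfold G w
      have : Real.sqrt ((n : ℝ) + 1) ≠ 0 := by positivity
      field_simp
    rw [h1]
    have h2 := hGt'.mul (tendsto_w.div_const 2)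
    simpa using h2

/-- One-dimensional approximation by a finite set of indices. -/
lemma approx_nonneg (t : ℕ → ℝ) (A δ : ℝ) (hA : 0 ≤ A)
    (hsmall : ∀ k, t k < δ)
    (hdiv : Tendsto (fun n => ∑ k ∈ Finset.range n, t k) atTop atTop) :
    ∃ m, |∑ k ∈ Finset.range m, t k - A| < δ := by
  classical
  have hex : ∃ n, A < ∑ k ∈ Finset.range n, t k := (hdiv.eventually_gt_atTop A).exists
  let n := Nat.find hex
  have hn : A < ∑ k ∈ Finset.range n, t k := Nat.find_spec hex
  have hn0 : n ≠ 0 := by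
    intro h
    rw [h] at hn
    simp at hn
    linarith
  obtain ⟨m, hm⟩ := Nat.exists_eq_succ_of_ne_zero hn0
  have hm2 : ¬ A < ∑ k ∈ Finset.range m, t k := Nat.find_min hex (by
    change m < n
    omega)
  refine ⟨n, ?_⟩
  rw [hm, Finset.sum_range_succ] at hn ⊢
  have h1 := hsmall m
  push Not at hm2
  rw [abs_lt]
  constructor <;> linarith

lemma approx (a δ : ℝ) (hδ : 0 < δ) :
    ∃ F : Finset ℕ, (∀ n ∈ F, 1 ≤ n) ∧ |∑ n ∈ F, (-1 : ℝ) ^ n / n - a| < δ := by
  obtain ⟨K, hK⟩ := exists_nat_gt (1 / δ)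
  have hK0 : (0 : ℝ) < K := lt_trans (by positivity) hK
  have hKδ : 1 / (K : ℝ) < δ := by
    rw [div_lt_iff₀ hK0]
    rw [div_lt_iff₀ hδ] at hK
    linarith
  have hK1 : 1 ≤ K := by exact_mod_cast hK0
  have hdiv : ∀ c : ℕ, c ≤ 1 → Tendsto (fun n => ∑ k ∈ Finset.range n,
      1 / ((2 * (K + k) + c : ℕ) : ℝ)) atTop atTop := by
    intro c hc
    refine tendsto_atTop_mono ?_ (sum_inv_tendsto (1 / (4 * K)) (by positivity))
    intro n
    apply Finset.sum_le_sum
    intro k _
    rw [div_mul_div_comm, one_mul]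
    apply one_div_le_one_div_of_le (by positivity)
    push_cast
    have h1 : (1 : ℝ) ≤ K := by exact_mod_cast hK1
    have h2 : (c : ℝ) ≤ 1 := by exact_mod_cast hc
    have h3 : (0 : ℝ) ≤ k := Nat.cast_nonneg k
    nlinarith
  have hsmall : ∀ c k : ℕ, 1 / ((2 * (K + k) + c : ℕ) : ℝ) < δ := by
    intro c k
    refine lt_of_le_of_lt ?_ hKδ
    apply one_div_le_one_div_of_le hK0
    have : K ≤ 2 * (K + k) + c := by omega
    exact_mod_cast this
  rcases le_total 0 a with ha | ha
  · obtain ⟨m, hm⟩ := approx_nonneg (fun k => 1 / ((2 * (K + k) + 0 : ℕ) : ℝ)) a δ ha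
      (hsmall 0) (hdiv 0 (by norm_num))
    refine ⟨(Finset.range m).image (fun k => 2 * (K + k) + 0), ?_, ?_⟩
    · intro n hn
      rw [Finset.mem_image] at hn
      obtain ⟨k, _, rfl⟩ := hn
      omega
    · rw [Finset.sum_image]
      · have h1 : ∀ k, (-1 : ℝ) ^ (2 * (K + k) + 0) / ((2 * (K + k) + 0 : ℕ) : ℝ)
            = 1 / ((2 * (K + k) + 0 : ℕ) : ℝ) := by
          intro k
          rw [add_zero, pow_mul]
          norm_num
        rw [Finset.sum_congr rfl (fun k _ => h1 k)]
        exact hm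
      · intro x _ y _ hxy
        simp only at hxy
        omega
  · obtain ⟨m, hm⟩ := approx_nonneg (fun k => 1 / ((2 * (K + k) + 1 : ℕ) : ℝ)) (-a) δ
      (by linarith) (hsmall 1) (hdiv 1 (by norm_num))
    refine ⟨(Finset.range m).image (fun k => 2 * (K + k) + 1), ?_, ?_⟩
    · intro n hn
      rw [Finset.mem_image] at hn
      obtain ⟨k, _, rfl⟩ := hn
      omega
    · rw [Finset.sum_image]
      · have h1 : ∀ k, (-1 : ℝ) ^ (2 * (K + k) + 1) / ((2 * (K + k) + 1 : ℕ) : ℝ)
            = - (1 / ((2 * (K + k) + 1 : ℕ) : ℝ)) := by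
          intro k
          rw [pow_succ, pow_mul]
          norm_num
          ring
        rw [Finset.sum_congr rfl (fun k _ => h1 k), Finset.sum_neg_distrib]
        rw [abs_sub_comm] at hm ⊢
        rw [← abs_neg]
        convert hm using 2
        ring
      · intro x _ y _ hxy
        simp only at hxy
        omega

open Classical in
/-- The choice at step `n + 1` in state `(r, ρ)`. -/
def choice (F : Finset ℕ) (N n : ℕ) (q : ℝ × ℝ) : ℝ :=
  if n < N then (if n + 1 ∈ F then 1 else 0)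
  else (if sg n * (q.1 - 2 * Real.sqrt ((n : ℝ) + 1) * q.2) < 0 then 1 else 0)

/-- The state `(r n, ρ n)`. -/
def st (a b : ℝ) (F : Finset ℕ) (N : ℕ) : ℕ → ℝ × ℝ
  | 0 => (-b, a - b)
  | n + 1 =>
    let q := st a b F N n
    let r' := q.1 + choice F N n q * (sg n * w n)
    (r', q.2 - r' * (w n - w (n + 1)))

/-- The chosen coefficients. -/
def eps (a b : ℝ) (F : Finset ℕ) (N : ℕ) : ℕ → ℝ
  | 0 => 0
  | n + 1 => choice F N n (st a b F N n)

lemma eps_cases (a b : ℝ) (F : Finset ℕ) (N n : ℕ) :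
    eps a b F N n = 0 ∨ eps a b F N n = 1 := by
  cases n with
  | zero => exact Or.inl rfl
  | succ n =>
    change choice F N n (st a b F N n) = 0 ∨ choice F N n (st a b F N n) = 1
    unfold choice
    split_ifs <;> simp

lemma sum_snd (a b : ℝ) (F : Finset ℕ) (N n : ℕ) :
    ∑ k ∈ Finset.Icc 1 n, eps a b F N k * ((-1) ^ k / Real.sqrt k) = (st a b F N n).1 + b := by
  induction n with
  | zero => simp [st]
  | succ n ih =>
    rw [Finset.sum_Icc_succ_top (by omega), ih]
    simp only [st, eps, sg, w]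
    push_cast
    ring

lemma sum_fst (a b : ℝ) (F : Finset ℕ) (N n : ℕ) :
    ∑ k ∈ Finset.Icc 1 n, eps a b F N k * ((-1) ^ k / (k : ℝ))
      = a - (st a b F N n).2 + (st a b F N n).1 * w n := by
  induction n with
  | zero => simp [st, w]
  | succ n ih =>
    rw [Finset.sum_Icc_succ_top (by omega), ih]
    simp only [st, eps, sg]
    have h1 : ((-1 : ℝ) ^ (n + 1) / ((n + 1 : ℕ) : ℝ)) = (-1) ^ (n + 1) * (w n * w n) := by
      rw [w_sq]
      push_cast
      ring
    rw [h1]
    ring

lemma dyn (a b : ℝ) (F : Finset ℕ) (N : ℕ) :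
    Dyn (fun n => (st a b F N n).1) (fun n => (st a b F N n).2) N := by
  constructor
  · intro n hn
    have hE : E (fun n => (st a b F N n).1) (fun n => (st a b F N n).2) n
        = (st a b F N n).1 - 2 * Real.sqrt ((n : ℝ) + 1) * (st a b F N n).2 := rfl
    rw [hE]
    change (st a b F N n).1 + choice F N n (st a b F N n) * (sg n * w n) = _
    congr 1
    unfold choice corr
    rw [if_neg (not_lt.2 hn)]
    by_cases h : sg n * ((st a b F N n).1 - 2 * Real.sqrt ((n : ℝ) + 1) * (st a b F N n).2) < 0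
    · rw [if_pos h, if_pos h, one_mul]
    · rw [if_neg h, if_neg h, zero_mul]
  · intro n hn
    simp only [st]

lemma eps_F (a b : ℝ) (F : Finset ℕ) (N n : ℕ) (hn : n ∈ Finset.Icc 1 N) :
    eps a b F N n = if n ∈ F then 1 else 0 := by
  rw [Finset.mem_Icc] at hn
  obtain ⟨m, rfl⟩ : ∃ m, n = m + 1 := ⟨n - 1, by omega⟩
  change choice F N m (st a b F N m) = _
  unfold choice
  rw [if_pos (by omega)]

/-- Every point of the plane is the sum of a convergent subseries. -/
theorem main (a b : ℝ) : ∃ ε : ℕ → ℝ, (∀ n, ε n = 0 ∨ ε n = 1) ∧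
    Tendsto (fun N : ℕ => ∑ n ∈ Finset.Icc 1 N,
      ε n • (((-1 : ℝ) ^ n / (n : ℝ), (-1 : ℝ) ^ n / Real.sqrt n) : ℝ × ℝ)) atTop (𝓝 (a, b)) := by
  obtain ⟨F, hF1, hF2⟩ := approx a (1 / 64) (by norm_num)
  -- the second coordinate of the finite sum
  set R : ℝ := ∑ n ∈ F, (-1 : ℝ) ^ n / Real.sqrt n - b with hR
  -- the time N
  obtain ⟨N, hN1, hN2⟩ : ∃ N : ℕ, (∀ n ∈ F, n ≤ N) ∧ 64 * (|R| + 1) ≤ 1 / w N := by
    have h1 : Tendsto (fun n : ℕ => 1 / w n) atTop atTop := by
      have h2 : (fun n : ℕ => 1 / w n) = fun n : ℕ => Real.sqrt ((n : ℝ) + 1) := by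
        funext n
        unfold w
        rw [one_div_one_div]
      rw [h2]
      apply Real.tendsto_sqrt_atTop.comp
      exact tendsto_atTop_add_const_right _ _ tendsto_natCast_atTop_atTop
    obtain ⟨K, hK⟩ := (h1.eventually_ge_atTop (64 * (|R| + 1))).exists_forall_of_atTop
    exact ⟨max K (F.sup id), fun n hn => le_trans (Finset.le_sup (f := id) hn) (le_max_right _ _),
      hK _ (le_max_left _ _)⟩
  have hw := w_pos N
  have hinter : ∀ c : ℕ → ℝ, ∑ k ∈ Finset.Icc 1 N, eps a b F N k * c k = ∑ k ∈ F, c k := by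
    intro c
    have h1 : ∀ k ∈ Finset.Icc 1 N, eps a b F N k * c k = if k ∈ F then c k else 0 := by
      intro k hk
      rw [eps_F a b F N k hk]
      split_ifs <;> simp
    rw [Finset.sum_congr rfl h1, ← Finset.sum_filter]
    congr 1
    ext k
    rw [Finset.mem_filter, Finset.mem_Icc]
    constructor
    · exact fun h => h.2
    · exact fun h => ⟨⟨hF1 k h, hN1 k h⟩, h⟩
  have hrN : (st a b F N N).1 = R := by
    have h1 := sum_snd a b F N N
    rw [hinter] at h1
    rw [hR]
    linarith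
  have hρN : (st a b F N N).2 = a - ∑ n ∈ F, (-1 : ℝ) ^ n / (n : ℝ) + R * w N := by
    have h1 := sum_fst a b F N N
    rw [hinter, hrN] at h1
    linarith
  have hR0 := abs_nonneg R
  have hwN : w N * (64 * (|R| + 1)) ≤ 1 := by
    rw [le_div_iff₀ hw] at hN2
    linarith
  have hG : |G (fun n => (st a b F N n).2) N| ≤ 1 / (16 * w N) := by
    unfold G
    simp only
    rw [hρN]
    have h1 : Real.sqrt ((N : ℝ) + 1) = 1 / w N := by
      unfold w
      rw [one_div_one_div]
    rw [h1, abs_mul, abs_of_pos (by positivity)]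
    have h2 : |a - ∑ n ∈ F, (-1 : ℝ) ^ n / (n : ℝ) + R * w N| ≤ 1 / 32 := by
      refine (abs_add_le _ _).trans ?_
      rw [abs_sub_comm, abs_mul, abs_of_pos hw]
      have h3 : |R| * w N ≤ 1 / 64 := by nlinarith
      linarith
    calc 2 * (1 / w N) * |a - ∑ n ∈ F, (-1 : ℝ) ^ n / (n : ℝ) + R * w N|
        ≤ 2 * (1 / w N) * (1 / 32) := mul_le_mul_of_nonneg_left h2 (by positivity)
      _ = 1 / (16 * w N) := by
        field_simp
        norm_num
  have hcomp : ∀ c : ℝ, 1 / (c * w N) = (1 / c) * (1 / w N) := by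
    intro c
    rw [one_div_mul_one_div]
  have hinvw : 0 < 1 / w N := by positivity
  have hw64 : w N ≤ 1 / 64 := by nlinarith
  obtain ⟨h1, h2⟩ := converge (dyn a b F N) (by linarith) (by
    refine hG.trans ?_
    rw [hcomp, hcomp]
    linarith) (by
    refine (pot_le _ _).trans ?_
    have h3 : |E (fun n => (st a b F N n).1) (fun n => (st a b F N n).2) N|
        ≤ |R| + 1 / (16 * w N) := by
      unfold E
      refine (abs_sub _ _).trans ?_
      simp only
      rw [hrN]
      linarith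
    rw [hcomp] at h3 ⊢
    linarith)
  refine ⟨eps a b F N, eps_cases a b F N, ?_⟩
  have h3 : (fun M : ℕ => ∑ n ∈ Finset.Icc 1 M,
      eps a b F N n • (((-1 : ℝ) ^ n / (n : ℝ), (-1 : ℝ) ^ n / Real.sqrt n) : ℝ × ℝ))
      = fun M : ℕ => (a - (st a b F N M).2 + (st a b F N M).1 * w M, (st a b F N M).1 + b) := by
    funext M
    rw [← sum_fst, ← sum_snd]
    apply Prod.ext
    · rw [Prod.fst_sum]
      simp
    · rw [Prod.snd_sum]
      simp
  rw [h3]
  apply Tendsto.prodMk_nhds
  · have h4 := (h2.const_sub a).add (h1.mul tendsto_w)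
    simpa using h4
  · have h4 := h1.add_const b
    simpa using h4

end

end Pool.Agent.H51.Achieve
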