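import Mathlib

set_option autoImplicit false

/-!
# Definitions for the stochastic adding machine operator

Digits are indexed from 0 here: the digit a_(r+1)(x), the base d_(r+1) and the probability p_(r+1)
of the problem file are `x r`, `d r` and `p r`.
-/

namespace Pool.Agent.H51.Adding

noncomputable section

/-- The compact space of digit sequences, a product of the finite discrete spaces `Fin (d r)`. -/
abbrev Gam (d : ℕ → ℕ) : Type := ∀ r : ℕ, Fin (d r)

variable {d : ℕ → ℕ}

/-- The number `s_x`: the least `r ≥ 1` such that the `r`-th digit of `x` (counted from 1)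
is not the maximal digit, and `⊤` if there is none. -/
def sIdx (x : Gam d) : ℕ∞ := ⨅ (r : ℕ) (_ : (x r : ℕ) ≠ d r - 1), ((r + 1 : ℕ) : ℕ∞)

/-- The zero digit. -/
def zeroDigit (hd : ∀ r, 2 ≤ d r) (r : ℕ) : Fin (d r) := ⟨0, by have := hd r; omega⟩

/-- The odometer `V x = x + 1`, addition of one with carries: a digit is increased by one modulo its
base when all the digits before it are maximal, and is unchanged otherwise. -/
def V (hd : ∀ r, 2 ≤ d r) (x : Gam d) : Gam d := fun r =>
  open Classical in
  if ∀ i < r, (x i : ℕ) = d i - 1 then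
    ⟨((x r : ℕ) + 1) % d r, Nat.mod_lt _ (by have := hd r; omega)⟩ else x r

/-- `T_s x`: the first `s` digits of `x` are replaced by zero. -/
def trunc (hd : ∀ r, 2 ≤ d r) (s : ℕ) (x : Gam d) : Gam d := fun r =>
  if r < s then zeroDigit hd r else x r

/-- The stochastic adding machine operator, acting on functions `g` on the space of digit
sequences. -/
def S (hd : ∀ r, 2 ≤ d r) (p : ℕ → ℝ) (g : Gam d → ℂ) (x : Gam d) : ℂ :=
  ((1 - p 0 : ℝ) : ℂ) * g x
    + ((∏' r : {r : ℕ // (r : ℕ∞) < sIdx x}, p r : ℝ) : ℂ) * g (V hd x)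
    + ∑' s : {s : ℕ // 1 ≤ s ∧ (s : ℕ∞) < sIdx x},
        (((∏ r ∈ Finset.range s, p r) * (1 - p s) : ℝ) : ℂ) * g (trunc hd s x)

/-- The residual spectrum of an operator `A` on the space of continuous complex functions on `X`
with the supremum norm: the set of all `z` such that `A - z` is injective and some continuous
function `h` has a positive distance `ε` from the range of `A - z`. -/
def residualSpectrum {X : Type} [TopologicalSpace X] (A : (X → ℂ) → X → ℂ) : Set ℂ :=
  {z : ℂ | (∀ g : X → ℂ, Continuous g → (∀ x, A g x - z * g x = 0) → ∀ x, g x = 0) ∧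
    ∃ h : X → ℂ, Continuous h ∧ ∃ ε : ℝ, 0 < ε ∧
      ∀ g : X → ℂ, Continuous g → ∃ x, ε ≤ ‖(A g x - z * g x) - h x‖}

end

end Pool.Agent.H51.Adding
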