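import Pool.Agent.H51.AddingDefs

set_option autoImplicit false

namespace Pool.Agent.H51.Adding

open Filter Topology

noncomputable section

variable {d : ℕ → ℕ}

/-! ### Auxiliary facts -/

/-- All digits before the place `r` are maximal. -/
def Mx (r : ℕ) (x : Gam d) : Prop := ∀ i < r, (x i : ℕ) = d i - 1

lemma lt_sIdx_iff (r : ℕ) (x : Gam d) : (r : ℕ∞) < sIdx x ↔ Mx r x := by
  unfold sIdx Mx
  constructor
  · intro h i hi
    by_contra hne
    have h1 : (⨅ (r : ℕ) (_ : (x r : ℕ) ≠ d r - 1), ((r + 1 : ℕ) : ℕ∞)) ≤ ((i + 1 : ℕ) : ℕ∞) :=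
      iInf₂_le i hne
    have h2 : (r : ℕ∞) < ((i + 1 : ℕ) : ℕ∞) := lt_of_lt_of_le h h1
    have h3 : r < i + 1 := by exact_mod_cast h2
    omega
  · intro h
    have h1 : ((r + 1 : ℕ) : ℕ∞) ≤ ⨅ (r : ℕ) (_ : (x r : ℕ) ≠ d r - 1), ((r + 1 : ℕ) : ℕ∞) := by
      apply le_iInf₂
      intro i hi
      have : r ≤ i := by
        by_contra hlt
        exact hi (h i (by omega))
      exact_mod_cast Nat.succ_le_succ this
    refine lt_of_lt_of_le ?_ h1
    exact_mod_cast Nat.lt_succ_self r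

lemma Mx_mono {r s : ℕ} (h : r ≤ s) {x : Gam d} (hx : Mx s x) : Mx r x :=
  fun i hi => hx i (lt_of_lt_of_le hi h)

lemma Mx_zero (x : Gam d) : Mx 0 x := fun i hi => absurd hi (Nat.not_lt_zero i)

open Classical in
/-- Truncated probabilities. -/
def u (p : ℕ → ℝ) (x : Gam d) (r : ℕ) : ℝ := if Mx r x then p r else 1

/-- Partial products. -/
def U (p : ℕ → ℝ) (x : Gam d) (N : ℕ) : ℝ := ∏ r ∈ Finset.range N, u p x r

/-- The full product. -/
def Uinf (p : ℕ → ℝ) (x : Gam d) : ℝ := ∏' r, u p x r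

variable {p : ℕ → ℝ}

lemma u_pos (hp : ∀ r, 0 < p r ∧ p r ≤ 1) (x : Gam d) (r : ℕ) : 0 < u p x r := by
  unfold u
  split_ifs
  · exact (hp r).1
  · exact one_pos

lemma u_le_one (hp : ∀ r, 0 < p r ∧ p r ≤ 1) (x : Gam d) (r : ℕ) : u p x r ≤ 1 := by
  unfold u
  split_ifs
  · exact (hp r).2
  · exact le_rfl

lemma multipliable_u (hp : ∀ r, 0 < p r ∧ p r ≤ 1) (x : Gam d) : Multipliable (u p x) := by
  have hanti : Antitone (fun s : Finset ℕ => ∏ r ∈ s, u p x r) := by
    intro s t hst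
    simp only
    rw [← Finset.prod_sdiff hst]
    have h1 : ∏ r ∈ t \ s, u p x r ≤ 1 :=
      Finset.prod_le_one (fun r _ => (u_pos hp x r).le) (fun r _ => u_le_one hp x r)
    have h2 : 0 ≤ ∏ r ∈ s, u p x r := Finset.prod_nonneg (fun r _ => (u_pos hp x r).le)
    exact mul_le_of_le_one_left h2 h1
  have hb : BddBelow (Set.range (fun s : Finset ℕ => ∏ r ∈ s, u p x r)) := by
    refine ⟨0, ?_⟩
    rintro y ⟨s, rfl⟩
    exact Finset.prod_nonneg (fun r _ => (u_pos hp x r).le)
  exact ⟨_, by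
    rw [HasProd, SummationFilter.unconditional_filter]
    exact tendsto_atTop_ciInf hanti hb⟩

lemma tendsto_U (hp : ∀ r, 0 < p r ∧ p r ≤ 1) (x : Gam d) :
    Tendsto (U p x) atTop (𝓝 (Uinf p x)) :=
  (multipliable_u hp x).hasProd.tendsto_prod_nat

lemma U_nonneg (hp : ∀ r, 0 < p r ∧ p r ≤ 1) (x : Gam d) (N : ℕ) : 0 ≤ U p x N :=
  Finset.prod_nonneg (fun r _ => (u_pos hp x r).le)

lemma U_le_one (hp : ∀ r, 0 < p r ∧ p r ≤ 1) (x : Gam d) (N : ℕ) : U p x N ≤ 1 :=
  Finset.prod_le_one (fun r _ => (u_pos hp x r).le) (fun r _ => u_le_one hp x r)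

lemma Uinf_nonneg (hp : ∀ r, 0 < p r ∧ p r ≤ 1) (x : Gam d) : 0 ≤ Uinf p x :=
  ge_of_tendsto' (tendsto_U hp x) (U_nonneg hp x)

lemma Uinf_le_one (hp : ∀ r, 0 < p r ∧ p r ≤ 1) (x : Gam d) : Uinf p x ≤ 1 :=
  le_of_tendsto' (tendsto_U hp x) (U_le_one hp x)

/-- The weight of the transition `x → T_s x`. -/
def c (p : ℕ → ℝ) (x : Gam d) (s : ℕ) : ℝ := U p x s - U p x (s + 1)

lemma c_eq (x : Gam d) (s : ℕ) [Decidable (Mx s x)] :
    c p x s = if Mx s x then (∏ r ∈ Finset.range s, p r) * (1 - p s) else 0 := by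
  classical
  unfold c U
  rw [Finset.prod_range_succ]
  by_cases h : Mx s x
  · rw [if_pos h]
    have h1 : ∏ r ∈ Finset.range s, u p x r = ∏ r ∈ Finset.range s, p r := by
      apply Finset.prod_congr rfl
      intro r hr
      unfold u
      rw [if_pos (Mx_mono (Finset.mem_range.1 hr).le h)]
    have h2 : u p x s = p s := by
      unfold u
      rw [if_pos h]
    rw [h1, h2]
    ring
  · rw [if_neg h]
    have h2 : u p x s = 1 := by
      unfold u
      rw [if_neg h]
    rw [h2]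
    ring

lemma c_nonneg (hp : ∀ r, 0 < p r ∧ p r ≤ 1) (x : Gam d) (s : ℕ) : 0 ≤ c p x s := by
  unfold c
  have h1 : U p x (s + 1) = U p x s * u p x s := Finset.prod_range_succ _ _
  rw [h1]
  have h2 := mul_le_of_le_one_right (U_nonneg hp x s) (u_le_one hp x s)
  linarith

lemma sum_c (x : Gam d) (N : ℕ) : ∑ s ∈ Finset.range N, c p x s = 1 - U p x N := by
  unfold c
  rw [Finset.sum_range_sub' (U p x) N]
  congr 1

lemma hasSum_c (hp : ∀ r, 0 < p r ∧ p r ≤ 1) (x : Gam d) : HasSum (c p x) (1 - Uinf p x) := by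
  rw [hasSum_iff_tendsto_nat_of_nonneg (c_nonneg hp x)]
  have h : (fun N => ∑ s ∈ Finset.range N, c p x s) = fun N => 1 - U p x N := by
    funext N
    exact sum_c x N
  rw [h]
  exact (tendsto_U hp x).const_sub 1


lemma prod_eq_Uinf (x : Gam d) :
    (∏' r : {r : ℕ // (r : ℕ∞) < sIdx x}, p r) = Uinf p x := by
  classical
  have h1 : (∏' r : {r : ℕ // (r : ℕ∞) < sIdx x}, p r)
      = ∏' r : ℕ, ({r : ℕ | (r : ℕ∞) < sIdx x}).mulIndicator p r :=
    tprod_subtype {r : ℕ | (r : ℕ∞) < sIdx x} p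
  rw [h1]
  unfold Uinf
  congr 1
  funext r
  unfold u Set.mulIndicator
  by_cases h : Mx r x
  · rw [if_pos h, if_pos]
    exact (lt_sIdx_iff r x).2 h
  · rw [if_neg h, if_neg]
    intro h2
    exact h ((lt_sIdx_iff r x).1 h2)

lemma trunc_zero (hd : ∀ r, 2 ≤ d r) (x : Gam d) : trunc hd 0 x = x := by
  funext r
  unfold trunc
  rw [if_neg (Nat.not_lt_zero r)]

lemma summable_term (hd : ∀ r, 2 ≤ d r) (hp : ∀ r, 0 < p r ∧ p r ≤ 1) (g : Gam d → ℂ) (M : ℝ)
    (hM : ∀ x, ‖g x‖ ≤ M) (x : Gam d) :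
    Summable (fun s : ℕ => (c p x s : ℂ) * g (trunc hd s x)) := by
  refine Summable.of_norm_bounded ((hasSum_c hp x).summable.mul_right M) ?_
  intro s
  rw [norm_mul, Complex.norm_real, Real.norm_of_nonneg (c_nonneg hp x s)]
  exact mul_le_mul_of_nonneg_left (hM _) (c_nonneg hp x s)

/-- The formula, in a simpler form. -/
lemma formula_eq (hd : ∀ r, 2 ≤ d r) (hp : ∀ r, 0 < p r ∧ p r ≤ 1) (g : Gam d → ℂ) (M : ℝ)
    (hM : ∀ x, ‖g x‖ ≤ M) (x : Gam d) :
    S hd p g x = (Uinf p x : ℂ) * g (V hd x) + ∑' s : ℕ, (c p x s : ℂ) * g (trunc hd s x) := by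
  classical
  unfold S
  rw [prod_eq_Uinf]
  have h1 : (∑' s : {s : ℕ // 1 ≤ s ∧ (s : ℕ∞) < sIdx x},
        (((∏ r ∈ Finset.range s, p r) * (1 - p s) : ℝ) : ℂ) * g (trunc hd s x))
      = ∑' s : ℕ, ({s : ℕ | 1 ≤ s ∧ (s : ℕ∞) < sIdx x}).indicator
        (fun s => (((∏ r ∈ Finset.range s, p r) * (1 - p s) : ℝ) : ℂ) * g (trunc hd s x)) s :=
    tsum_subtype {s : ℕ | 1 ≤ s ∧ (s : ℕ∞) < sIdx x}
      (fun s => (((∏ r ∈ Finset.range s, p r) * (1 - p s) : ℝ) : ℂ) * g (trunc hd s x))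
  rw [h1, (summable_term hd hp g M hM x).tsum_eq_zero_add]
  have h0 : (c p x 0 : ℂ) * g (trunc hd 0 x) = ((1 - p 0 : ℝ) : ℂ) * g x := by
    rw [trunc_zero, c_eq, if_pos (Mx_zero x)]
    simp
  rw [h0]
  have hM0 : 0 ≤ M := (norm_nonneg _).trans (hM x)
  have hF : (fun s : ℕ => ({s : ℕ | 1 ≤ s ∧ (s : ℕ∞) < sIdx x}).indicator
        (fun s => (((∏ r ∈ Finset.range s, p r) * (1 - p s) : ℝ) : ℂ) * g (trunc hd s x)) s)
      = fun s : ℕ => if s = 0 then 0 else (c p x s : ℂ) * g (trunc hd s x) := by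
    funext s
    unfold Set.indicator
    rw [c_eq]
    by_cases hs : s = 0
    · subst hs
      simp
    · have hs1 : 1 ≤ s := Nat.one_le_iff_ne_zero.2 hs
      by_cases hMx : Mx s x
      · have h3 : (s : ℕ∞) < sIdx x := (lt_sIdx_iff s x).2 hMx
        rw [if_neg hs, if_pos hMx, if_pos]
        exact ⟨hs1, h3⟩
      · rw [if_neg hs, if_neg hMx, if_neg]
        · simp
        · rintro ⟨_, h3⟩
          exact hMx ((lt_sIdx_iff s x).1 h3)
  rw [hF]
  have h2 : Summable (fun s : ℕ => if s = 0 then 0 else (c p x s : ℂ) * g (trunc hd s x)) := by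
    refine Summable.of_norm_bounded ((hasSum_c hp x).summable.mul_right M) ?_
    intro s
    split_ifs
    · rw [norm_zero]
      exact mul_nonneg (c_nonneg hp x s) hM0
    · rw [norm_mul, Complex.norm_real, Real.norm_of_nonneg (c_nonneg hp x s)]
      exact mul_le_mul_of_nonneg_left (hM _) (c_nonneg hp x s)
  rw [h2.tsum_eq_zero_add]
  simp only [Nat.add_eq_zero_iff, one_ne_zero, and_false, if_false, if_true, zero_add]
  ring

/-- Bound of the formula. -/
lemma norm_formula_le (hd : ∀ r, 2 ≤ d r) (hp : ∀ r, 0 < p r ∧ p r ≤ 1) (g : Gam d → ℂ) (M : ℝ)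
    (hM : ∀ x, ‖g x‖ ≤ M) (x : Gam d) : ‖S hd p g x‖ ≤ M := by
  rw [formula_eq hd hp g M hM x]
  have h1 : ‖(Uinf p x : ℂ) * g (V hd x)‖ ≤ Uinf p x * M := by
    rw [norm_mul, Complex.norm_real, Real.norm_of_nonneg (Uinf_nonneg hp x)]
    exact mul_le_mul_of_nonneg_left (hM _) (Uinf_nonneg hp x)
  have h2 : ‖∑' s : ℕ, (c p x s : ℂ) * g (trunc hd s x)‖ ≤ (1 - Uinf p x) * M := by
    refine tsum_of_norm_bounded ((hasSum_c hp x).mul_right M) ?_
    intro s
    rw [norm_mul, Complex.norm_real, Real.norm_of_nonneg (c_nonneg hp x s)]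
    exact mul_le_mul_of_nonneg_left (hM _) (c_nonneg hp x s)
  calc _ ≤ ‖(Uinf p x : ℂ) * g (V hd x)‖ + ‖∑' s : ℕ, (c p x s : ℂ) * g (trunc hd s x)‖ :=
        norm_add_le _ _
    _ ≤ M := by linarith

/-- `g` depends only on the first `r` digits. -/
def Dep (r : ℕ) (g : Gam d → ℂ) : Prop := ∀ x y : Gam d, (∀ i < r, x i = y i) → g x = g y

lemma Mx_congr {r s : ℕ} {x y : Gam d} (hxy : ∀ i < r, x i = y i) (hs : s ≤ r) :
    Mx s x ↔ Mx s y := by
  unfold Mx
  constructor
  · intro h i hi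
    rw [← hxy i (by omega)]
    exact h i hi
  · intro h i hi
    rw [hxy i (by omega)]
    exact h i hi

lemma V_congr (hd : ∀ r, 2 ≤ d r) {r : ℕ} {x y : Gam d} (hxy : ∀ i < r, x i = y i) :
    ∀ i < r, V hd x i = V hd y i := by
  intro i hi
  have h1 := Mx_congr hxy hi.le
  unfold Mx at h1
  unfold V
  by_cases h : ∀ k < i, (x k : ℕ) = d k - 1
  · rw [if_pos h, if_pos (h1.1 h)]
    apply Fin.ext
    simp only
    rw [hxy i hi]
  · rw [if_neg h, if_neg (fun h2 => h (h1.2 h2)), hxy i hi]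

lemma trunc_congr (hd : ∀ r, 2 ≤ d r) {r : ℕ} {x y : Gam d} (hxy : ∀ i < r, x i = y i) (s : ℕ) :
    ∀ i < r, trunc hd s x i = trunc hd s y i := by
  intro i hi
  unfold trunc
  rw [hxy i hi]

/-- Functions of the first `r` digits are preserved by the operator. -/
lemma formula_dep (hd : ∀ r, 2 ≤ d r) (hp : ∀ r, 0 < p r ∧ p r ≤ 1) (g : Gam d → ℂ) (M : ℝ)
    (hM : ∀ x, ‖g x‖ ≤ M) (r : ℕ) (hg : Dep r g) : Dep r (S hd p g) := by
  classical
  intro x y hxy
  rw [formula_eq hd hp g M hM x, formula_eq hd hp g M hM y]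
  have hV : g (V hd x) = g (V hd y) := hg _ _ (V_congr hd hxy)
  have hT : ∀ s, g (trunc hd s x) = g (trunc hd s y) := fun s => hg _ _ (trunc_congr hd hxy s)
  by_cases hr : Mx r x
  · -- both start with r maximal digits
    have hr' : Mx r y := (Mx_congr hxy le_rfl).1 hr
    let z : Gam d := fun r => zeroDigit hd r
    have main : ∀ w : Gam d, Mx r w →
        (Uinf p w : ℂ) * g (V hd w) + ∑' s : ℕ, (c p w s : ℂ) * g (trunc hd s w)
        = ∑ s ∈ Finset.range r, (((∏ r ∈ Finset.range s, p r) * (1 - p s) : ℝ) : ℂ)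
          * g (trunc hd s w) + ((∏ r ∈ Finset.range r, p r : ℝ) : ℂ) * g z := by
      intro w hw
      have hVz : g (V hd w) = g z := by
        apply hg
        intro i hi
        have h1 : ∀ k < i, (w k : ℕ) = d k - 1 := fun k hk => hw k (by omega)
        unfold V
        rw [if_pos h1]
        apply Fin.ext
        simp only [z, zeroDigit]
        rw [hw i hi]
        have := hd i
        have h2 : d i - 1 + 1 = d i := by omega
        rw [h2, Nat.mod_self]
      have hTz : ∀ s, g (trunc hd (s + r) w) = g z := by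
        intro s
        apply hg
        intro i hi
        unfold trunc
        rw [if_pos (by omega)]
      rw [← (summable_term hd hp g M hM w).sum_add_tsum_nat_add r, hVz]
      have h1 : ∑ s ∈ Finset.range r, (c p w s : ℂ) * g (trunc hd s w)
          = ∑ s ∈ Finset.range r, (((∏ r ∈ Finset.range s, p r) * (1 - p s) : ℝ) : ℂ)
          * g (trunc hd s w) := by
        apply Finset.sum_congr rfl
        intro s hs
        rw [c_eq, if_pos (Mx_mono (Finset.mem_range.1 hs).le hw)]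
      have h2 : ∑' s : ℕ, (c p w (s + r) : ℂ) * g (trunc hd (s + r) w)
          = ((∑' s : ℕ, c p w (s + r) : ℝ) : ℂ) * g z := by
        rw [Complex.ofReal_tsum, ← tsum_mul_right]
        congr 1
        funext s
        rw [hTz s]
      have h3 : ∑' s : ℕ, c p w (s + r) = (∏ r ∈ Finset.range r, p r) - Uinf p w := by
        have h4 := (hasSum_c hp w).summable.sum_add_tsum_nat_add r
        rw [(hasSum_c hp w).tsum_eq, sum_c] at h4
        have h5 : U p w r = ∏ r ∈ Finset.range r, p r := by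
          unfold U
          apply Finset.prod_congr rfl
          intro k hk
          unfold u
          rw [if_pos (Mx_mono (Finset.mem_range.1 hk).le hw)]
        rw [h5] at h4
        linarith
      rw [h1, h2, h3]
      push_cast
      ring
    rw [main x hr, main y hr']
    congr 1
    apply Finset.sum_congr rfl
    intro s _
    rw [hT s]
  · -- the first non-maximal digit is among the first r
    have hM2 : ∀ s, Mx s x ↔ Mx s y := by
      intro s
      rcases le_or_gt s r with h | h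
      · exact Mx_congr hxy h
      · constructor
        · intro h2
          exact absurd (Mx_mono h.le h2) hr
        · intro h2
          exact absurd ((Mx_congr hxy le_rfl).2 (Mx_mono h.le h2)) hr
    have hu : u p x = u p y := by
      funext s
      unfold u
      by_cases h : Mx s x
      · rw [if_pos h, if_pos ((hM2 s).1 h)]
      · rw [if_neg h, if_neg (fun h2 => h ((hM2 s).2 h2))]
    have hUinf : Uinf p x = Uinf p y := by
      unfold Uinf
      rw [hu]
    have hc : c p x = c p y := by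
      funext s
      unfold c U
      rw [hu]
    rw [hUinf, hc, hV]
    congr 1
    congr 1
    funext s
    rw [hT s]


lemma formula_add (hd : ∀ r, 2 ≤ d r) (hp : ∀ r, 0 < p r ∧ p r ≤ 1) (g h : Gam d → ℂ) (M N : ℝ)
    (hM : ∀ x, ‖g x‖ ≤ M) (hN : ∀ x, ‖h x‖ ≤ N) (x : Gam d) :
    S hd p (fun y => g y + h y) x = S hd p g x + S hd p h x := by
  have hMN : ∀ x, ‖g x + h x‖ ≤ M + N := fun x =>
    (norm_add_le _ _).trans (add_le_add (hM x) (hN x))
  rw [formula_eq hd hp g M hM x, formula_eq hd hp h N hN x,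
    formula_eq hd hp (fun y => g y + h y) (M + N) hMN x]
  have h1 := summable_term hd hp g M hM x
  have h2 := summable_term hd hp h N hN x
  have h3 : (∑' s : ℕ, (c p x s : ℂ) * (g (trunc hd s x) + h (trunc hd s x)))
      = (∑' s : ℕ, (c p x s : ℂ) * g (trunc hd s x))
        + ∑' s : ℕ, (c p x s : ℂ) * h (trunc hd s x) := by
    rw [← h1.tsum_add h2]
    congr 1
    funext s
    ring
  rw [h3]
  ring

lemma formula_smul (hd : ∀ r, 2 ≤ d r) (hp : ∀ r, 0 < p r ∧ p r ≤ 1) (g : Gam d → ℂ) (M : ℝ)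
    (hM : ∀ x, ‖g x‖ ≤ M) (a : ℂ) (x : Gam d) :
    S hd p (fun y => a * g y) x = a * S hd p g x := by
  have hMN : ∀ x, ‖a * g x‖ ≤ ‖a‖ * M := fun x => by
    rw [norm_mul]
    exact mul_le_mul_of_nonneg_left (hM x) (norm_nonneg _)
  rw [formula_eq hd hp g M hM x, formula_eq hd hp (fun y => a * g y) (‖a‖ * M) hMN x]
  have h3 : (∑' s : ℕ, (c p x s : ℂ) * (a * g (trunc hd s x)))
      = a * ∑' s : ℕ, (c p x s : ℂ) * g (trunc hd s x) := by
    rw [← tsum_mul_left]
    congr 1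
    funext s
    ring
  rw [h3]
  ring

/-- The digits from the place `r` on are replaced by zero. -/
def head (hd : ∀ r, 2 ≤ d r) (r : ℕ) (x : Gam d) : Gam d := fun i =>
  if i < r then x i else zeroDigit hd i

lemma continuous_head (hd : ∀ r, 2 ≤ d r) (r : ℕ) : Continuous (head hd r) := by
  apply continuous_pi
  intro i
  unfold head
  by_cases h : i < r
  · simp only [if_pos h]
    exact continuous_apply i
  · simp only [if_neg h]
    exact continuous_const

/-- Uniform continuity in terms of the digits. -/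
lemma unif (g : C(Gam d, ℂ)) (ε : ℝ) (hε : 0 < ε) :
    ∃ r, ∀ x y : Gam d, (∀ i < r, x i = y i) → ‖g x - g y‖ < ε := by
  have h1 : ∀ x : Gam d, ∃ n, PiNat.cylinder x n ⊆ {y | ‖g y - g x‖ < ε / 2} := by
    intro x
    have hopen : IsOpen {y : Gam d | ‖g y - g x‖ < ε / 2} :=
      isOpen_lt (by fun_prop) continuous_const
    have hmem : {y : Gam d | ‖g y - g x‖ < ε / 2} ∈ 𝓝 x := by
      apply hopen.mem_nhds
      simp only [Set.mem_ofPred_eq, sub_self, norm_zero]
      positivity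
    have hb := PiNat.isTopologicalBasis_cylinders (fun r => Fin (d r))
    rw [hb.mem_nhds_iff] at hmem
    obtain ⟨t, ⟨x', n, rfl⟩, hxt, ht⟩ := hmem
    refine ⟨n, ?_⟩
    rw [PiNat.mem_cylinder_iff_eq] at hxt
    rw [hxt]
    exact ht
  choose n hn using h1
  obtain ⟨t, ht⟩ := CompactSpace.elim_nhds_subcover (fun x : Gam d => PiNat.cylinder x (n x))
    (fun x => (PiNat.isOpen_cylinder _ x (n x)).mem_nhds (PiNat.self_mem_cylinder x (n x)))
  refine ⟨t.sup n, ?_⟩
  intro x y hxy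
  have hx : x ∈ ⋃ z ∈ t, PiNat.cylinder z (n z) := by
    rw [ht]
    trivial
  simp only [Set.mem_iUnion] at hx
  obtain ⟨z, hz, hxz⟩ := hx
  have hyz : y ∈ PiNat.cylinder z (n z) := by
    rw [PiNat.mem_cylinder_iff] at hxz ⊢
    intro i hi
    rw [← hxz i hi, hxy i (lt_of_lt_of_le hi (Finset.le_sup hz))]
  have h2 : ‖g x - g z‖ < ε / 2 := hn z hxz
  have h3 : ‖g y - g z‖ < ε / 2 := hn z hyz
  rw [norm_sub_rev] at h3
  have h4 : g x - g y = (g x - g z) + (g z - g y) := by ring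
  rw [h4]
  calc _ ≤ ‖g x - g z‖ + ‖g z - g y‖ := norm_add_le _ _
    _ < ε := by linarith

lemma bound (g : C(Gam d, ℂ)) (x : Gam d) : ‖g x‖ ≤ ‖g‖ := g.norm_coe_le_norm x

lemma dep_head (hd : ∀ r, 2 ≤ d r) (r : ℕ) (g : Gam d → ℂ) : Dep r (fun x => g (head hd r x)) := by
  intro x y hxy
  have : head hd r x = head hd r y := by
    funext i
    unfold head
    by_cases h : i < r
    · rw [if_pos h, if_pos h, hxy i h]
    · rw [if_neg h, if_neg h]
  simp only [this]

lemma head_agree (hd : ∀ r, 2 ≤ d r) (r : ℕ) (x : Gam d) : ∀ i < r, x i = head hd r x i := by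
  intro i hi
  unfold head
  rw [if_pos hi]

lemma formula_unif (hd : ∀ r, 2 ≤ d r) (hp : ∀ r, 0 < p r ∧ p r ≤ 1) (g : C(Gam d, ℂ)) (ε : ℝ)
    (hε : 0 < ε) : ∃ r, ∀ x y : Gam d, (∀ i < r, x i = y i) →
      ‖S hd p g x - S hd p g y‖ < ε := by
  obtain ⟨r, hr⟩ := unif g (ε / 4) (by positivity)
  refine ⟨r, ?_⟩
  intro x y hxy
  let g1 : Gam d → ℂ := fun x => g (head hd r x)
  let g2 : Gam d → ℂ := fun x => g x - g (head hd r x)
  have hb1 : ∀ x, ‖g1 x‖ ≤ ‖g‖ := fun x => bound g _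
  have hb2 : ∀ x, ‖g2 x‖ ≤ ε / 4 := fun x => (hr x (head hd r x) (head_agree hd r x)).le
  have hg : (g : Gam d → ℂ) = fun x => g1 x + g2 x := by
    funext x
    simp only [g1, g2]
    ring
  have h1 : ∀ x, S hd p g x = S hd p g1 x + S hd p g2 x := by
    intro x
    rw [hg]
    exact formula_add hd hp g1 g2 _ _ hb1 hb2 x
  have h2 : S hd p g1 x = S hd p g1 y :=
    formula_dep hd hp g1 _ hb1 r (dep_head hd r g) x y hxy
  have h3 := norm_formula_le hd hp g2 _ hb2 x
  have h4 := norm_formula_le hd hp g2 _ hb2 y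
  rw [h1 x, h1 y, h2]
  have h5 : S hd p g1 y + S hd p g2 x - (S hd p g1 y + S hd p g2 y)
      = S hd p g2 x - S hd p g2 y := by ring
  rw [h5]
  calc _ ≤ ‖S hd p g2 x‖ + ‖S hd p g2 y‖ := norm_sub_le _ _
    _ < ε := by linarith

lemma continuous_formula (hd : ∀ r, 2 ≤ d r) (hp : ∀ r, 0 < p r ∧ p r ≤ 1) (g : C(Gam d, ℂ)) :
    Continuous (S hd p g) := by
  rw [continuous_iff_continuousAt]
  intro x
  rw [ContinuousAt, Metric.tendsto_nhds]
  intro ε hε
  obtain ⟨r, hr⟩ := formula_unif hd hp g ε hε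
  filter_upwards [(PiNat.isOpen_cylinder _ x r).mem_nhds (PiNat.self_mem_cylinder x r)] with y hy
  rw [dist_eq_norm]
  exact hr y x hy

/-- The stochastic adding machine operator as a bounded operator on `C(Gam d, ℂ)`. -/
def opS (hd : ∀ r, 2 ≤ d r) (hp : ∀ r, 0 < p r ∧ p r ≤ 1) : C(Gam d, ℂ) →L[ℂ] C(Gam d, ℂ) :=
  LinearMap.mkContinuous
    { toFun := fun g => ⟨S hd p g, continuous_formula hd hp g⟩
      map_add' := by
        intro g h
        ext x
        exact formula_add hd hp g h _ _ (bound g) (bound h) x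
      map_smul' := by
        intro a g
        ext x
        exact formula_smul hd hp g _ (bound g) a x }
    1 (by
      intro g
      rw [one_mul, ContinuousMap.norm_le _ (norm_nonneg _)]
      intro x
      exact norm_formula_le hd hp g _ (bound g) x)

lemma opS_apply (hd : ∀ r, 2 ≤ d r) (hp : ∀ r, 0 < p r ∧ p r ≤ 1) (g : C(Gam d, ℂ)) (x : Gam d) :
    opS hd hp g x = S hd p g x := rfl

/-- The functions of the first `r` digits. -/
def F (d : ℕ → ℕ) (r : ℕ) : Submodule ℂ C(Gam d, ℂ) where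
  carrier := {g | Dep r g}
  add_mem' := by
    intro g h hg hh x y hxy
    simp only [ContinuousMap.add_apply]
    rw [hg x y hxy, hh x y hxy]
  zero_mem' := by
    intro x y _
    simp
  smul_mem' := by
    intro a g hg x y hxy
    simp only [ContinuousMap.smul_apply]
    rw [hg x y hxy]

lemma finite_F (hd : ∀ r, 2 ≤ d r) (r : ℕ) : FiniteDimensional ℂ (F d r) := by
  let ext : (∀ i : Fin r, Fin (d i)) → Gam d := fun w i =>
    if h : i < r then w ⟨i, h⟩ else zeroDigit hd i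
  let L : F d r →ₗ[ℂ] ((∀ i : Fin r, Fin (d i)) → ℂ) :=
    { toFun := fun g w => (g : C(Gam d, ℂ)) (ext w)
      map_add' := by
        intro g h
        funext w
        simp
      map_smul' := by
        intro a g
        funext w
        simp }
  have hL : Function.Injective L := by
    intro g h hgh
    apply Subtype.ext
    ext x
    have h1 := congrFun hgh (fun i => x i)
    have h2 : ∀ i < r, x i = ext (fun i : Fin r => x i) i := by
      intro i hi
      simp only [ext, dif_pos hi]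
    rw [g.2 x _ h2, h.2 x _ h2]
    exact h1
  exact Module.Finite.of_injective L hL


theorem continuous_S (hd : ∀ r, 2 ≤ d r) (hp : ∀ r, 0 < p r ∧ p r ≤ 1) (g : Gam d → ℂ)
    (hg : Continuous g) : Continuous (S hd p g) :=
  continuous_formula hd hp ⟨g, hg⟩

theorem main (hd : ∀ r, 2 ≤ d r) (hp : ∀ r, 0 < p r ∧ p r ≤ 1) :
    residualSpectrum (S hd p) = ∅ := by
  rw [Set.eq_empty_iff_forall_notMem]
  rintro z ⟨hinj, h0, hh0, ε, hε, hfar⟩
  let g : C(Gam d, ℂ) := ⟨h0, hh0⟩
  obtain ⟨r, hr⟩ := unif g ε hε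
  -- the approximation of g
  let g1 : C(Gam d, ℂ) := ⟨fun x => g (head hd r x), g.continuous.comp (continuous_head hd r)⟩
  have hg1 : g1 ∈ F d r := dep_head hd r g
  -- the restriction of S - z to the functions of the first r digits
  let A : C(Gam d, ℂ) →ₗ[ℂ] C(Gam d, ℂ) :=
    ((opS hd hp - z • ContinuousLinearMap.id ℂ C(Gam d, ℂ) : C(Gam d, ℂ) →L[ℂ] C(Gam d, ℂ)) :
      C(Gam d, ℂ) →ₗ[ℂ] C(Gam d, ℂ))
  have hAapp : ∀ (h : C(Gam d, ℂ)) (x : Gam d), A h x = S hd p h x - z * h x := fun h x => rfl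
  have hA : ∀ h ∈ F d r, A h ∈ F d r := by
    intro h hh
    have h1 : opS hd hp h ∈ F d r := formula_dep hd hp h _ (bound h) r hh
    have h2 : z • h ∈ F d r := (F d r).smul_mem z hh
    exact (F d r).sub_mem h1 h2
  have hfin := finite_F hd r
  have hAinj : Function.Injective (A.restrict hA) := by
    rw [injective_iff_map_eq_zero]
    intro a ha
    apply Subtype.ext
    ext x
    refine hinj a.1 a.1.continuous (fun y => ?_) x
    have h3 : A a.1 = 0 := congrArg Subtype.val ha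
    rw [← hAapp, h3]
    rfl
  have hAsurj : Function.Surjective (A.restrict hA) :=
    LinearMap.injective_iff_surjective.1 hAinj
  obtain ⟨h, hh⟩ := hAsurj ⟨g1, hg1⟩
  have hh2 : A h.1 = g1 := congrArg Subtype.val hh
  obtain ⟨x, hx⟩ := hfar h.1 h.1.continuous
  rw [← hAapp, hh2, norm_sub_rev] at hx
  exact absurd hx (not_le.2 (hr x (head hd r x) (head_agree hd r x)))

end

end Pool.Agent.H51.Adding
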