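import Pool.Agent.H51.IetDefs

set_option autoImplicit false

namespace Pool.Agent.H51.Iet

open MeasureTheory Filter Topology

noncomputable section

variable {d : ℕ}

lemma left_add_le {a : Fin d → ℝ} (ha : ∀ i, 0 < a i) {i j : Fin d} (hij : i < j) :
    left a i + a i ≤ left a j := by
  unfold left
  have h1 : (∑ k : Fin d, if k < i then a k else 0) + a i
      = ∑ k : Fin d, ((if k < i then a k else 0) + (if k = i then a k else 0)) := by
    rw [Finset.sum_add_distrib, Finset.sum_ite_eq' Finset.univ i a]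
    simp
  rw [h1]
  apply Finset.sum_le_sum
  intro k _
  have hk := (ha k).le
  by_cases h1 : k < i
  · have h2 : k < j := h1.trans hij
    have h3 : k ≠ i := ne_of_lt h1
    rw [if_pos h1, if_pos h2, if_neg h3, add_zero]
  · rw [if_neg h1]
    by_cases h3 : k = i
    · subst h3
      rw [if_pos rfl, if_pos hij, zero_add]
    · rw [if_neg h3, add_zero]
      split_ifs
      · exact hk
      · exact le_rfl

lemma left_nonneg {a : Fin d → ℝ} (ha : ∀ i, 0 < a i) (i : Fin d) : 0 ≤ left a i := by
  unfold left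
  apply Finset.sum_nonneg
  intro k _
  split_ifs
  · exact (ha k).le
  · exact le_rfl

lemma left_add_le_len {a : Fin d → ℝ} (ha : ∀ i, 0 < a i) (i : Fin d) :
    left a i + a i ≤ len a := by
  unfold left len
  have h1 : (∑ k : Fin d, if k < i then a k else 0) + a i
      = ∑ k : Fin d, ((if k < i then a k else 0) + (if k = i then a k else 0)) := by
    rw [Finset.sum_add_distrib, Finset.sum_ite_eq' Finset.univ i a]
    simp
  rw [h1]
  apply Finset.sum_le_sum
  intro k _
  have hk := (ha k).le
  by_cases h1 : k < i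
  · have h3 : k ≠ i := ne_of_lt h1
    rw [if_pos h1, if_neg h3, add_zero]
  · rw [if_neg h1]
    by_cases h3 : k = i
    · subst h3
      rw [if_pos rfl, zero_add]
    · rw [if_neg h3, add_zero]
      exact hk

lemma left_next {a : Fin d → ℝ} {i j : Fin d} (hij : (j : ℕ) = i + 1) :
    left a j = left a i + a i := by
  unfold left
  have h1 : (∑ k : Fin d, if k < i then a k else 0) + a i
      = ∑ k : Fin d, ((if k < i then a k else 0) + (if k = i then a k else 0)) := by
    rw [Finset.sum_add_distrib, Finset.sum_ite_eq' Finset.univ i a]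
    simp
  rw [h1]
  apply Finset.sum_congr rfl
  intro k _
  rcases lt_trichotomy k i with h | h | h
  · have h2 : k < j := by
      rw [Fin.lt_def] at h ⊢
      omega
    rw [if_pos h, if_pos h2, if_neg (ne_of_lt h), add_zero]
  · subst h
    have h2 : k < j := by
      rw [Fin.lt_def]
      omega
    rw [if_pos h2, if_neg (lt_irrefl k), if_pos rfl, zero_add]
  · have h2 : ¬ k < j := by
      rw [Fin.lt_def] at h ⊢
      omega
    rw [if_neg h2, if_neg (not_lt.2 h.le), if_neg (ne_of_gt h), add_zero]

lemma left_last {a : Fin d → ℝ} {i : Fin d} (hi : (i : ℕ) + 1 = d) :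
    left a i + a i = len a := by
  unfold left len
  have h1 : (∑ k : Fin d, if k < i then a k else 0) + a i
      = ∑ k : Fin d, ((if k < i then a k else 0) + (if k = i then a k else 0)) := by
    rw [Finset.sum_add_distrib, Finset.sum_ite_eq' Finset.univ i a]
    simp
  rw [h1]
  apply Finset.sum_congr rfl
  intro k _
  rcases lt_trichotomy k i with h | h | h
  · rw [if_pos h, if_neg (ne_of_lt h), add_zero]
  · subst h
    rw [if_neg (lt_irrefl k), if_pos rfl, zero_add]
  · exfalso
    rw [Fin.lt_def] at h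
    have := k.2
    omega

lemma left_zero {a : Fin d → ℝ} {i : Fin d} (hi : (i : ℕ) = 0) : left a i = 0 := by
  unfold left
  apply Finset.sum_eq_zero
  intro k _
  rw [if_neg]
  rw [Fin.lt_def]
  omega

/-- Every point of `[0, len a)` lies in one of the intervals. -/
lemma exists_idx {a : Fin d → ℝ} {x : ℝ} (hx : x ∈ Set.Ico 0 (len a)) :
    ∃ i : Fin d, x ∈ Set.Ico (left a i) (left a i + a i) := by
  have hd : 0 < d := by
    rcases Nat.eq_zero_or_pos d with h | h
    · subst h
      have h1 : len a = 0 := by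
        unfold len
        simp
      rw [h1] at hx
      exact absurd hx.2 (not_lt.2 hx.1)
    · exact h
  let s : Finset (Fin d) := Finset.univ.filter (fun i => left a i ≤ x)
  have hs : s.Nonempty := by
    refine ⟨⟨0, hd⟩, ?_⟩
    rw [Finset.mem_filter]
    refine ⟨Finset.mem_univ _, ?_⟩
    rw [left_zero rfl]
    exact hx.1
  obtain ⟨i, hi, hmax⟩ := Finset.exists_max_image s (fun i => (i : ℕ)) hs
  rw [Finset.mem_filter] at hi
  refine ⟨i, hi.2, ?_⟩
  by_contra hcon
  push Not at hcon
  by_cases hlast : (i : ℕ) + 1 = d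
  · rw [left_last hlast] at hcon
    exact absurd hx.2 (not_lt.2 hcon)
  · have hlt : (i : ℕ) + 1 < d := by
      have := i.2
      omega
    have hj : (⟨i + 1, hlt⟩ : Fin d) ∈ s := by
      rw [Finset.mem_filter]
      refine ⟨Finset.mem_univ _, ?_⟩
      rw [left_next (i := i) rfl]
      exact hcon
    have := hmax _ hj
    simp at this

lemma idx_unique {a : Fin d → ℝ} (ha : ∀ i, 0 < a i) {x : ℝ} {i j : Fin d}
    (hi : x ∈ Set.Ico (left a i) (left a i + a i)) (hj : x ∈ Set.Ico (left a j) (left a j + a j)) :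
    i = j := by
  rcases lt_trichotomy i j with h | h | h
  · have := left_add_le ha h
    exact absurd hi.2 (not_lt.2 (this.trans hj.1))
  · exact h
  · have := left_add_le ha h
    exact absurd hj.2 (not_lt.2 (this.trans hi.1))

lemma Ico_subset {a : Fin d → ℝ} (ha : ∀ i, 0 < a i) (i : Fin d) :
    Set.Ico (left a i) (left a i + a i) ⊆ Set.Ico 0 (len a) := by
  intro x hx
  exact ⟨(left_nonneg ha i).trans hx.1, lt_of_lt_of_le hx.2 (left_add_le_len ha i)⟩

/-- The interval exchange on `I_i`. -/
lemma iet_apply (σ : Equiv.Perm (Fin d)) {a : Fin d → ℝ} (ha : ∀ i, 0 < a i) {x : ℝ} {i : Fin d}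
    (hi : x ∈ Set.Ico (left a i) (left a i + a i)) :
    iet σ a x = x + (leftImage σ a i - left a i) := by
  unfold iet
  rw [Finset.sum_eq_single i]
  · rw [Set.indicator_of_mem hi]
  · intro j _ hj
    rw [Set.indicator_of_notMem]
    intro h
    exact hj (idx_unique ha h hi)
  · intro h
    exact absurd (Finset.mem_univ i) h

lemma leftImage_eq (σ : Equiv.Perm (Fin d)) (a : Fin d → ℝ) (i : Fin d) :
    leftImage σ a i = left (fun k => a (σ.symm k)) (σ i) := by
  unfold leftImage left
  rw [← Equiv.sum_comp σ (fun k => if k < σ i then a (σ.symm k) else 0)]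
  simp

lemma len_perm (σ : Equiv.Perm (Fin d)) (a : Fin d → ℝ) : len (fun k => a (σ.symm k)) = len a := by
  unfold len
  rw [Equiv.sum_comp σ.symm]

lemma leftImage_add_le (σ : Equiv.Perm (Fin d)) {a : Fin d → ℝ} (ha : ∀ i, 0 < a i) {i j : Fin d}
    (hij : σ i < σ j) : leftImage σ a i + a i ≤ leftImage σ a j := by
  rw [leftImage_eq, leftImage_eq]
  have h := left_add_le (a := fun k => a (σ.symm k)) (fun k => ha _) hij
  simpa using h

lemma leftImage_nonneg (σ : Equiv.Perm (Fin d)) {a : Fin d → ℝ} (ha : ∀ i, 0 < a i) (i : Fin d) :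
    0 ≤ leftImage σ a i := by
  rw [leftImage_eq]
  exact left_nonneg (fun k => ha _) _

lemma leftImage_add_le_len (σ : Equiv.Perm (Fin d)) {a : Fin d → ℝ} (ha : ∀ i, 0 < a i)
    (i : Fin d) : leftImage σ a i + a i ≤ len a := by
  have h := left_add_le_len (a := fun k => a (σ.symm k)) (fun k => ha _) (σ i)
  rw [len_perm] at h
  rw [leftImage_eq]
  simpa using h

lemma iet_mem_image (σ : Equiv.Perm (Fin d)) {a : Fin d → ℝ} (ha : ∀ i, 0 < a i) {x : ℝ}
    {i : Fin d} (hi : x ∈ Set.Ico (left a i) (left a i + a i)) :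
    iet σ a x ∈ Set.Ico (leftImage σ a i) (leftImage σ a i + a i) := by
  rw [iet_apply σ ha hi]
  constructor
  · have := hi.1
    linarith
  · have := hi.2
    linarith

lemma iet_mem (σ : Equiv.Perm (Fin d)) {a : Fin d → ℝ} (ha : ∀ i, 0 < a i) {x : ℝ}
    (hx : x ∈ Set.Ico 0 (len a)) : iet σ a x ∈ Set.Ico 0 (len a) := by
  obtain ⟨i, hi⟩ := exists_idx hx
  have h := iet_mem_image σ ha hi
  exact ⟨(leftImage_nonneg σ ha i).trans h.1, lt_of_lt_of_le h.2 (leftImage_add_le_len σ ha i)⟩

lemma iterate_mem (σ : Equiv.Perm (Fin d)) {a : Fin d → ℝ} (ha : ∀ i, 0 < a i) {x : ℝ}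
    (hx : x ∈ Set.Ico 0 (len a)) (n : ℕ) : (iet σ a)^[n] x ∈ Set.Ico 0 (len a) := by
  induction n with
  | zero => exact hx
  | succ n ih =>
    rw [Function.iterate_succ_apply']
    exact iet_mem σ ha ih

lemma iet_lt_iff (σ : Equiv.Perm (Fin d)) {a : Fin d → ℝ} (ha : ∀ i, 0 < a i) {x y : ℝ}
    {i j : Fin d} (hi : x ∈ Set.Ico (left a i) (left a i + a i))
    (hj : y ∈ Set.Ico (left a j) (left a j + a j)) :
    iet σ a y < iet σ a x ↔ (σ j < σ i ∨ (j = i ∧ y < x)) := by
  have hx := iet_mem_image σ ha hi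
  have hy := iet_mem_image σ ha hj
  rcases lt_trichotomy (σ j) (σ i) with h | h | h
  · have h1 := leftImage_add_le σ ha h
    refine ⟨fun _ => Or.inl h, fun _ => ?_⟩
    exact lt_of_lt_of_le hy.2 (h1.trans hx.1)
  · have h1 : j = i := σ.injective h
    subst h1
    rw [iet_apply σ ha hi, iet_apply σ ha hj]
    constructor
    · intro h2
      right
      exact ⟨rfl, by linarith⟩
    · rintro (h2 | ⟨_, h2⟩)
      · exact absurd h2 (lt_irrefl _)
      · linarith
  · have h1 := leftImage_add_le σ ha h
    constructor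
    · intro h2
      have h3 := lt_of_lt_of_le hx.2 (h1.trans hy.1)
      exact absurd h2 (not_lt.2 h3.le)
    · rintro (h2 | ⟨h2, _⟩)
      · exact absurd h2 (not_lt.2 h.le)
      · subst h2
        exact absurd h (lt_irrefl _)

lemma measurable_iet (σ : Equiv.Perm (Fin d)) (a : Fin d → ℝ) : Measurable (iet σ a) := by
  unfold iet
  apply measurable_id.add
  apply Finset.measurable_sum
  intro i _
  exact measurable_const.indicator measurableSet_Ico

end

end Pool.Agent.H51.Iet
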