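import Pool.Agent.H51.IetBasic

set_option autoImplicit false

namespace Pool.Agent.H51.Iet

open MeasureTheory Filter Topology

noncomputable section

variable {d : ℕ}

/-- Sequential continuity from the left. -/
def LeftCont (H : ℝ → ℝ) : Prop :=
  ∀ (u : ℕ → ℝ) (p : ℝ), StrictMono u → Tendsto u atTop (𝓝 p) →
    Tendsto (fun n => H (u n)) atTop (𝓝 (H p))

/-- An invariant left-continuous function of an aperiodic interval exchange cannot increase. -/
lemma no_increase (σ : Equiv.Perm (Fin d)) {a : Fin d → ℝ} (ha : ∀ i, 0 < a i)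
    (haper : ∀ x ∈ Set.Ico 0 (len a), ∀ m, 0 < m → (iet σ a)^[m] x ≠ x)
    (H : ℝ → ℝ) (hH : LeftCont H) (hinv : ∀ x ∈ Set.Ico 0 (len a), H (iet σ a x) = H x)
    {x y : ℝ} (hx : x ∈ Set.Ico 0 (len a)) (hy : y ∈ Set.Ico 0 (len a)) (hxy : x < y) :
    ¬ H x < H y := by
  intro hlt
  set c := H x with hc
  let S : Set ℝ := {z | 0 ≤ z ∧ z ≤ y ∧ H z ≤ c}
  have hSne : S.Nonempty := ⟨x, hx.1, hxy.le, le_rfl⟩
  have hSbdd : BddAbove S := ⟨y, fun z hz => hz.2.1⟩
  set p := sSup S with hp
  have hlub : IsLUB S p := isLUB_csSup hSne hSbdd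
  have hxp : x ≤ p := hlub.1 ⟨hx.1, hxy.le, le_rfl⟩
  have hpy : p ≤ y := hlub.2 (fun z hz => hz.2.1)
  have hHp : H p ≤ c := by
    by_cases hpS : p ∈ S
    · exact hpS.2.2
    · obtain ⟨u, hu1, _, hu3, hu4⟩ := hlub.exists_seq_strictMono_tendsto_of_notMem hpS hSne
      exact le_of_tendsto' (hH u p hu1 hu3) (fun n => (hu4 n).2.2)
  have hpy' : p < y := by
    rcases hpy.lt_or_eq with h | h
    · exact h
    · rw [h] at hHp
      exact absurd hlt (not_lt.2 hHp)
  have hp0 : p ∈ Set.Ico 0 (len a) := ⟨hx.1.trans hxp, hpy'.trans hy.2⟩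
  have hgap : ∀ z, p < z → z ≤ y → c < H z := by
    intro z hz1 hz2
    by_contra hcon
    push Not at hcon
    have : z ∈ S := ⟨hp0.1.trans hz1.le, hz2, hcon⟩
    exact absurd (hlub.1 this) (not_le.2 hz1)
  -- the orbit of p
  let o : ℕ → ℝ := fun n => (iet σ a)^[n] p
  have homem : ∀ n, o n ∈ Set.Ico 0 (len a) := iterate_mem σ ha hp0
  have hosucc : ∀ n, o (n + 1) = iet σ a (o n) := fun n => Function.iterate_succ_apply' _ _ _
  have hoH : ∀ n, H (o n) ≤ c := by
    intro n
    induction n with
    | zero => exact hHp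
    | succ n ih =>
      rw [hosucc, hinv _ (homem n)]
      exact ih
  have hdist : ∀ n m, n < m → o n ≠ o m := by
    intro n m hnm h
    apply haper (o n) (homem n) (m - n) (by omega)
    change (iet σ a)^[m - n] ((iet σ a)^[n] p) = o n
    rw [← Function.iterate_add_apply, Nat.sub_add_cancel hnm.le]
    exact h.symm
  have hdist' : ∀ n m, n ≠ m → o n ≠ o m := by
    intro n m hnm
    rcases lt_or_gt_of_ne hnm with h | h
    · exact hdist n m h
    · exact (hdist m n h).symm
  -- the gap to the right of o n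
  let P : ℕ → ℝ → Prop := fun n ε => 0 < ε ∧ o n + ε ≤ len a ∧ ∀ z, o n < z → z < o n + ε → c < H z
  have hP0 : P 0 (y - p) := by
    refine ⟨by linarith, ?_, ?_⟩
    · change p + (y - p) ≤ len a
      have := hy.2
      linarith
    · intro z hz1 hz2
      change p < z at hz1
      change z < p + (y - p) at hz2
      exact hgap z hz1 (by linarith)
  -- one step
  have hstep : ∀ n ε i, P n ε → o n ∈ Set.Ico (left a i) (left a i + a i) →
      o n + ε ≤ left a i + a i → P (n + 1) ε := by
    intro n ε i hP hi hε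
    obtain ⟨h1, h2, h3⟩ := hP
    have hval : o (n + 1) = o n + (leftImage σ a i - left a i) := by
      rw [hosucc, iet_apply σ ha hi]
    refine ⟨h1, ?_, ?_⟩
    · rw [hval]
      have := leftImage_add_le_len σ ha i
      linarith
    · intro z hz1 hz2
      rw [hval] at hz1 hz2
      have hz' : z - (leftImage σ a i - left a i) ∈ Set.Ico (left a i) (left a i + a i) := by
        constructor
        · have := hi.1
          linarith
        · linarith
      have h4 : iet σ a (z - (leftImage σ a i - left a i)) = z := by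
        rw [iet_apply σ ha hz']
        ring
      have h5 := hinv _ (Ico_subset ha i hz')
      rw [h4] at h5
      rw [h5]
      exact h3 _ (by linarith) (by linarith)
  have hPex : ∀ n, ∃ ε, P n ε := by
    intro n
    induction n with
    | zero => exact ⟨y - p, hP0⟩
    | succ n ih =>
      obtain ⟨ε, hε⟩ := ih
      obtain ⟨i, hi⟩ := exists_idx (homem n)
      refine ⟨min ε (left a i + a i - o n), ?_⟩
      apply hstep n _ i _ hi
      · have := min_le_right ε (left a i + a i - o n)
        linarith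
      · obtain ⟨h1, h2, h3⟩ := hε
        refine ⟨lt_min h1 (by have := hi.2; linarith), ?_, ?_⟩
        · have := min_le_left ε (left a i + a i - o n)
          linarith
        · intro z hz1 hz2
          apply h3 z hz1
          have := min_le_left ε (left a i + a i - o n)
          linarith
  -- bad times
  let Bad : Fin d → ℕ → Prop := fun i n => o n < left a i ∧ ∀ z, o n < z → z ≤ left a i → c < H z
  have hBad : ∀ i n m, Bad i n → Bad i m → n = m := by
    intro i n m hn hm
    by_contra hne
    rcases lt_or_gt_of_ne (hdist' n m hne) with h | h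
    · exact absurd (hn.2 (o m) h hm.1.le) (not_lt.2 (hoH m))
    · exact absurd (hm.2 (o n) h hn.1.le) (not_lt.2 (hoH n))
  have hfin : {n | ∃ i, Bad i n}.Finite := by
    have h1 : {n | ∃ i, Bad i n} = ⋃ i, {n | Bad i n} := by
      ext n
      simp
    rw [h1]
    apply Set.finite_iUnion
    intro i
    apply Set.Subsingleton.finite
    intro n hn m hm
    exact hBad i n m hn hm
  obtain ⟨n0, hn0⟩ := hfin.bddAbove
  obtain ⟨ε, hε⟩ := hPex (n0 + 1)
  have hall : ∀ k, P (n0 + 1 + k) ε := by
    intro k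
    induction k with
    | zero => exact hε
    | succ k ih =>
      obtain ⟨i, hi⟩ := exists_idx (homem (n0 + 1 + k))
      apply hstep _ _ i ih hi
      by_contra hcon
      push Not at hcon
      -- then the right endpoint of I_i is a discontinuity in the gap
      have hlast : (i : ℕ) + 1 ≠ d := by
        intro h
        rw [left_last h] at hcon
        exact absurd ih.2.1 (not_le.2 hcon)
      have hlt : (i : ℕ) + 1 < d := by
        have := i.2
        omega
      have hnext : left a (⟨i + 1, hlt⟩ : Fin d) = left a i + a i := left_next rfl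
      have hb : Bad ⟨i + 1, hlt⟩ (n0 + 1 + k) := by
        refine ⟨?_, ?_⟩
        · rw [hnext]
          exact hi.2
        · intro z hz1 hz2
          rw [hnext] at hz2
          exact ih.2.2 z hz1 (by linarith)
      have h6 : n0 + 1 + k ≤ n0 := hn0 ⟨_, hb⟩
      omega
  -- the points are separated
  have hεpos : 0 < ε := hε.1
  let f : ℕ → ℕ := fun k => ⌊o (n0 + 1 + k) / ε⌋₊
  have hfb : ∀ k, f k ∈ Finset.range (⌊len a / ε⌋₊ + 1) := by
    intro k
    rw [Finset.mem_range]
    apply Nat.lt_succ_of_le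
    apply Nat.floor_le_floor
    exact div_le_div_of_nonneg_right (homem _).2.le hεpos.le
  obtain ⟨k, _, m, _, hkm, hfkm⟩ : ∃ k ∈ Finset.range (⌊len a / ε⌋₊ + 2),
      ∃ m ∈ Finset.range (⌊len a / ε⌋₊ + 2), k ≠ m ∧ f k = f m := by
    apply Finset.exists_ne_map_eq_of_card_lt_of_maps_to (t := Finset.range (⌊len a / ε⌋₊ + 1))
    · simp
    · intro k _
      exact hfb k
  have hclose : |o (n0 + 1 + k) - o (n0 + 1 + m)| < ε := by
    have h1 := Nat.floor_le (div_nonneg (homem (n0 + 1 + k)).1 hεpos.le)
    have h2 := Nat.lt_floor_add_one (o (n0 + 1 + k) / ε)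
    have h3 := Nat.floor_le (div_nonneg (homem (n0 + 1 + m)).1 hεpos.le)
    have h4 := Nat.lt_floor_add_one (o (n0 + 1 + m) / ε)
    have h5 : (⌊o (n0 + 1 + k) / ε⌋₊ : ℝ) = ⌊o (n0 + 1 + m) / ε⌋₊ := by exact_mod_cast hfkm
    rw [le_div_iff₀ hεpos] at h1 h3
    rw [div_lt_iff₀ hεpos] at h2 h4
    rw [h5] at h1 h2
    rw [abs_lt]
    constructor <;> linarith
  rw [abs_lt] at hclose
  have hne : o (n0 + 1 + k) ≠ o (n0 + 1 + m) := hdist' _ _ (by omega)
  rcases lt_or_gt_of_ne hne with h | h
  · have := (hall k).2.2 _ h (by linarith)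
    exact absurd this (not_lt.2 (hoH _))
  · have := (hall m).2.2 _ h (by linarith)
    exact absurd this (not_lt.2 (hoH _))

lemma LeftCont.neg {H : ℝ → ℝ} (hH : LeftCont H) : LeftCont (fun x => - H x) :=
  fun u p hu hp => (hH u p hu hp).neg

/-- An invariant left-continuous function of an aperiodic interval exchange is constant. -/
lemma const_of_invariant (σ : Equiv.Perm (Fin d)) {a : Fin d → ℝ} (ha : ∀ i, 0 < a i)
    (haper : ∀ x ∈ Set.Ico 0 (len a), ∀ m, 0 < m → (iet σ a)^[m] x ≠ x)
    (H : ℝ → ℝ) (hH : LeftCont H) (hinv : ∀ x ∈ Set.Ico 0 (len a), H (iet σ a x) = H x)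
    {x y : ℝ} (hx : x ∈ Set.Ico 0 (len a)) (hy : y ∈ Set.Ico 0 (len a)) : H x = H y := by
  have key : ∀ x ∈ Set.Ico 0 (len a), ∀ y ∈ Set.Ico 0 (len a), x < y → H x = H y := by
    intro x hx y hy hxy
    have h1 := no_increase σ ha haper H hH hinv hx hy hxy
    have h2 := no_increase σ ha haper (fun x => - H x) hH.neg (fun z hz => by
      rw [hinv z hz]) hx hy hxy
    have h3 : -H y ≤ -H x := not_lt.1 h2
    have h4 : H y ≤ H x := not_lt.1 h1
    linarith
  rcases lt_trichotomy x y with h | h | h
  · exact key x hx y hy h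
  · rw [h]
  · exact (key y hy x hx h).symm

end

end Pool.Agent.H51.Iet
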