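import Pool.Agent.H51.IetMeasure

set_option autoImplicit false

namespace Pool.Agent.H51.Iet

open MeasureTheory Filter Topology

noncomputable section

variable {d : ℕ}

lemma AZ_antisymm (σ : Equiv.Perm (Fin d)) (i j : Fin d) : AZ σ j i = - AZ σ i j := by
  unfold AZ
  rcases lt_trichotomy i j with h | h | h
  · rcases lt_trichotomy (σ i) (σ j) with h' | h' | h'
    · rw [if_pos h, if_pos h', if_neg (not_lt.2 h.le), if_neg (not_lt.2 h'.le)]
      ring
    · exact absurd (σ.injective h') (ne_of_lt h)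
    · rw [if_pos h, if_neg (not_lt.2 h'.le), if_neg (not_lt.2 h.le), if_pos h']
      ring
  · subst h
    simp
  · rcases lt_trichotomy (σ i) (σ j) with h' | h' | h'
    · rw [if_neg (not_lt.2 h.le), if_pos h', if_pos h, if_neg (not_lt.2 h'.le)]
      ring
    · exact absurd (σ.injective h') (ne_of_gt h)
    · rw [if_neg (not_lt.2 h.le), if_neg (not_lt.2 h'.le), if_pos h, if_pos h']
      ring

lemma rank_le_two (σ : Equiv.Perm (Fin d)) (hd : d ≤ 3) : (translationMatrix σ).rank ≤ 2 := by
  rcases Nat.lt_or_ge d 3 with h | h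
  · have h1 := (translationMatrix σ).rank_le_card_width
    rw [Fintype.card_fin] at h1
    omega
  · have hd3 : d = 3 := le_antisymm hd h
    have hT : (translationMatrix σ).transpose = -(translationMatrix σ) := by
      ext i j
      rw [Matrix.transpose_apply, Matrix.neg_apply, translationMatrix_eq, translationMatrix_eq,
        AZ_antisymm]
      push_cast
      ring
    have hdet : (translationMatrix σ).det = 0 := by
      have h1 : (translationMatrix σ).det = (-(translationMatrix σ)).det := by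
        rw [← hT, Matrix.det_transpose]
      have h0 : (-1 : ℝ) ^ d = -1 := by
        rw [hd3]
        norm_num
      rw [Matrix.det_neg, Fintype.card_fin, h0] at h1
      linarith
    obtain ⟨v, hv, hv0⟩ := Matrix.exists_mulVec_eq_zero_iff.2 hdet
    have h2 := (translationMatrix σ).mulVecLin.finrank_range_add_finrank_ker
    rw [Module.finrank_fin_fun] at h2
    have h3 : 0 < Module.finrank ℝ (LinearMap.ker (translationMatrix σ).mulVecLin) := by
      rw [Module.finrank_pos_iff]
      refine ⟨⟨⟨v, ?_⟩, 0, ?_⟩⟩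
      · rw [LinearMap.mem_ker, Matrix.mulVecLin_apply]
        exact hv0
      · intro h4
        apply hv
        exact congrArg Subtype.val h4
    have h4 : Module.finrank ℝ (LinearMap.range (translationMatrix σ).mulVecLin)
        = (translationMatrix σ).rank := rfl
    omega

/-- The zeros of a non-trivial combination of the coordinates of the curve. -/
lemma countable_zeros {J : Set ℝ} (hJ : IsOpen J) (hJc : J.OrdConnected) (a : ℝ → Fin d → ℝ)
    (han : AnalyticOn ℝ a J)
    (hnd : ∀ P : AffineSubspace ℝ (Fin d → ℝ), a '' J ⊆ P → P = ⊤)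
    (c : Fin d → ℤ) (hc : c ≠ 0) : {s | s ∈ J ∧ ∑ j, (c j : ℝ) * a s j = 0}.Countable := by
  have hJp : IsPreconnected J := hJc.isPreconnected
  set g : ℝ → ℝ := fun s => ∑ j, (c j : ℝ) * a s j with hg
  have hgan : AnalyticOnNhd ℝ g J := by
    have h1 : AnalyticOnNhd ℝ a J := (hJ.analyticOn_iff_analyticOnNhd).1 han
    apply Finset.analyticOnNhd_fun_sum
    intro j _
    apply AnalyticOnNhd.mul analyticOnNhd_const
    intro s hs
    exact (ContinuousLinearMap.proj (R := ℝ) (φ := fun _ : Fin d => ℝ) j).analyticAt _ |>.comp (h1 s hs)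
  have hne : ¬ Set.EqOn g 0 J := by
    intro h
    let φ : (Fin d → ℝ) →ₗ[ℝ] ℝ := ∑ j, (c j : ℝ) • LinearMap.proj j
    have hφ : ∀ x, φ x = ∑ j, (c j : ℝ) * x j := by
      intro x
      simp [φ]
    have h1 := hnd (LinearMap.ker φ).toAffineSubspace (by
      rintro x ⟨s, hs, rfl⟩
      change a s ∈ LinearMap.ker φ
      rw [LinearMap.mem_ker, hφ]
      exact h hs)
    apply hc
    funext j
    have h2 : (Pi.single j (1 : ℝ) : Fin d → ℝ) ∈ (LinearMap.ker φ).toAffineSubspace := by
      rw [h1]
      trivial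
    have h3 : (Pi.single j (1 : ℝ) : Fin d → ℝ) ∈ LinearMap.ker φ := h2
    rw [LinearMap.mem_ker, hφ] at h3
    rw [Finset.sum_eq_single j] at h3
    · simp only [Pi.single_eq_same, mul_one] at h3
      exact_mod_cast h3
    · intro b _ hb
      rw [Pi.single_eq_of_ne hb, mul_zero]
    · intro h4
      exact absurd (Finset.mem_univ j) h4
  set Z : Set ℝ := {s | s ∈ J ∧ g s = 0} with hZ
  have hdisc : DiscreteTopology Z := by
    rw [discreteTopology_subtype_iff]
    intro z hz
    have h1 : ¬ ∃ᶠ y in 𝓝[≠] z, g y = 0 := fun hf =>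
      hne (hgan.eqOn_zero_of_preconnected_of_frequently_eq_zero hJp hz.1 hf)
    rw [not_frequently] at h1
    rw [← disjoint_iff, disjoint_principal_right]
    filter_upwards [h1] with y hy hyZ
    exact hy hyZ.2
  exact (HereditarilyLindelofSpace.isLindelof Z).countable hdisc

/-- **Main theorem.** -/
theorem curve (hd : 2 ≤ d) (σ : Equiv.Perm (Fin d)) (hσ : IrreduciblePerm σ)
    (hgenus : (translationMatrix σ).rank ≤ 2 ∨ d ≤ 3)
    (J : Set ℝ) (hJ : IsOpen J) (hJc : J.OrdConnected) (a : ℝ → Fin d → ℝ)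
    (han : AnalyticOn ℝ a J) (hpos : ∀ s ∈ J, ∀ i, 0 < a s i)
    (hnd : ∀ P : AffineSubspace ℝ (Fin d → ℝ), a '' J ⊆ P → P = ⊤) :
    {s | s ∈ J ∧ ¬ UniquelyErgodic σ (a s)}.Countable := by
  have hrank : (translationMatrix σ).rank ≤ 2 := by
    rcases hgenus with h | h
    · exact h
    · exact rank_le_two σ h
  have hsub : {s | s ∈ J ∧ ¬ UniquelyErgodic σ (a s)} ⊆
      ⋃ c : {c : Fin d → ℤ // c ≠ 0}, {s | s ∈ J ∧ ∑ j, (c.1 j : ℝ) * a s j = 0} := by
    rintro s ⟨hs, hne⟩
    by_contra hcon
    apply hne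
    apply uniquelyErgodic_of_rank σ hσ hd hrank (hpos s hs)
    intro c hc
    by_contra hc0
    apply hcon
    rw [Set.mem_iUnion]
    exact ⟨⟨c, hc0⟩, hs, hc⟩
  apply Set.Countable.mono hsub
  apply Set.countable_iUnion
  intro c
  exact countable_zeros hJ hJc a han hnd c.1 c.2

end

end Pool.Agent.H51.Iet
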