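import Mathlib

set_option autoImplicit false

/-!
# Interval exchange transformations: definitions
-/

namespace Pool.Agent.H51.Iet

open MeasureTheory

noncomputable section

variable {d : ℕ}

/-- The left endpoint of the `i`-th interval `I_i`, the sum of the lengths of the intervals before
it. -/
def left (a : Fin d → ℝ) (i : Fin d) : ℝ := ∑ j : Fin d, if j < i then a j else 0

/-- The left endpoint of the image of `I_i`: the sum of the lengths of the intervals whose images
come before the image of `I_i`, the image of `I_j` being the `σ j`-th one from the left. -/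
def leftImage (σ : Equiv.Perm (Fin d)) (a : Fin d → ℝ) (i : Fin d) : ℝ :=
  ∑ j : Fin d, if σ j < σ i then a j else 0

/-- The total length. -/
def len (a : Fin d → ℝ) : ℝ := ∑ i, a i

/-- The interval exchange: `I_i = [left a i, left a i + a i)` is translated so that its left
endpoint goes to `leftImage σ a i`; points outside `[0, len a)` are fixed. -/
def iet (σ : Equiv.Perm (Fin d)) (a : Fin d → ℝ) (x : ℝ) : ℝ :=
  x + ∑ i : Fin d, (Set.Ico (left a i) (left a i + a i)).indicator
    (fun _ => leftImage σ a i - left a i) x

/-- Irreducibility: no set `{1, ..., k}` with `0 < k < d` is mapped into itself. -/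
def IrreduciblePerm (σ : Equiv.Perm (Fin d)) : Prop :=
  ∀ k : ℕ, 0 < k → k < d → ¬ ∀ i : Fin d, (i : ℕ) < k → (σ i : ℕ) < k

/-- Unique ergodicity: normalized Lebesgue measure is the only invariant Borel probability measure
on `[0, len a)`. -/
def UniquelyErgodic (σ : Equiv.Perm (Fin d)) (a : Fin d → ℝ) : Prop :=
  ∀ μ : Measure ℝ, IsProbabilityMeasure μ → μ (Set.Ico 0 (len a)) = 1 →
    μ.map (iet σ a) = μ → μ = (ENNReal.ofReal (len a))⁻¹ • volume.restrict (Set.Ico 0 (len a))

/-- The antisymmetric integer matrix `A` of `σ`, for which `A a` is the vector of the translation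
lengths `leftImage σ a i - left a i`. Its rank is twice the genus of the suspension surfaces. -/
def translationMatrix (σ : Equiv.Perm (Fin d)) : Matrix (Fin d) (Fin d) ℝ :=
  fun i j => (if σ j < σ i then 1 else 0) - (if j < i then 1 else 0)

end

end Pool.Agent.H51.Iet
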