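import Pool.Agent.H51.IetProof

set_option autoImplicit false

namespace Pool.Agent.H51.Iet

open MeasureTheory Filter Topology

noncomputable section

variable {d : ℕ}

/-- The distribution function. -/
def Fm (μ : Measure ℝ) (x : ℝ) : ℝ := (μ (Set.Iio x)).toReal

lemma Fm_mono (μ : Measure ℝ) [IsProbabilityMeasure μ] {x y : ℝ} (h : x ≤ y) : Fm μ x ≤ Fm μ y :=
  ENNReal.toReal_mono (measure_ne_top _ _) (measure_mono (Set.Iio_subset_Iio h))

lemma Fm_nonneg (μ : Measure ℝ) (x : ℝ) : 0 ≤ Fm μ x := ENNReal.toReal_nonneg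

lemma Fm_le_one (μ : Measure ℝ) [IsProbabilityMeasure μ] (x : ℝ) : Fm μ x ≤ 1 := by
  unfold Fm
  have h := ENNReal.toReal_mono (measure_ne_top μ Set.univ) (measure_mono (Set.subset_univ (Set.Iio x)))
  rwa [measure_univ, ENNReal.toReal_one] at h

lemma leftCont_Fm (μ : Measure ℝ) [IsProbabilityMeasure μ] : LeftCont (Fm μ) := by
  intro u p hu hp
  have h1 : Set.Iio p = ⋃ n, Set.Iio (u n) := by
    ext z
    simp only [Set.mem_Iio, Set.mem_iUnion]
    constructor
    · intro hz
      exact (hp.eventually (lt_mem_nhds hz)).exists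
    · rintro ⟨n, hn⟩
      exact lt_of_lt_of_le hn (hu.monotone.ge_of_tendsto hp n)
  have hmono : Monotone (fun n => Set.Iio (u n)) := fun m n hmn => Set.Iio_subset_Iio (hu.monotone hmn)
  have h2 := tendsto_measure_iUnion_atTop (μ := μ) hmono
  rw [← h1] at h2
  exact (ENNReal.tendsto_toReal (measure_ne_top μ _)).comp h2

lemma leftCont_sub (H : ℝ → ℝ) (hH : LeftCont H) (κ : ℝ) : LeftCont (fun x => H x - κ * x) :=
  fun u p hu hp => (hH u p hu hp).sub (hp.const_mul κ)

variable {σ : Equiv.Perm (Fin d)} {a : Fin d → ℝ} {μ : Measure ℝ}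

/-- The intervals. -/
def Iv (a : Fin d → ℝ) (i : Fin d) : Set ℝ := Set.Ico (left a i) (left a i + a i)

lemma iUnion_Iv (ha : ∀ i, 0 < a i) : (⋃ i, Iv a i) = Set.Ico 0 (len a) := by
  ext x
  simp only [Set.mem_iUnion]
  constructor
  · rintro ⟨i, hi⟩
    exact Ico_subset ha i hi
  · exact fun hx => exists_idx hx

lemma disjoint_Iv (ha : ∀ i, 0 < a i) : Pairwise (Function.onFun Disjoint (Iv a)) := by
  intro i j hij
  rw [Function.onFun, Set.disjoint_left]
  intro x hi hj
  exact hij (idx_unique ha hi hj)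

/-- The measure of a set as a sum over the intervals. -/
lemma measure_eq_sum (ha : ∀ i, 0 < a i) [IsProbabilityMeasure μ]
    (hμ : μ (Set.Ico 0 (len a)) = 1) {s : Set ℝ} (hs : MeasurableSet s) :
    (μ s).toReal = ∑ i, (μ (s ∩ Iv a i)).toReal := by
  have h1 : μ s = μ (s ∩ Set.Ico 0 (len a)) := by
    have h2 : μ (Set.Ico 0 (len a))ᶜ = 0 := by
      rw [prob_compl_eq_zero_iff measurableSet_Ico]
      exact hμ
    exact (measure_inter_conull h2).symm
  rw [h1, ← iUnion_Iv ha, Set.inter_iUnion, measure_iUnion]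
  · rw [tsum_fintype, ENNReal.toReal_sum (fun i _ => measure_ne_top _ _)]
  · intro i j hij
    exact (disjoint_Iv ha hij).mono Set.inter_subset_right Set.inter_subset_right
  · intro i
    exact hs.inter measurableSet_Ico

/-- The increments of the distribution function along the map. -/
lemma Fm_increment (ha : ∀ i, 0 < a i) [IsProbabilityMeasure μ]
    (hμ : μ (Set.Ico 0 (len a)) = 1) (hinv : μ.map (iet σ a) = μ) {x : ℝ} {i : Fin d}
    (hi : x ∈ Set.Ico (left a i) (left a i + a i)) :
    Fm μ (iet σ a x) - Fm μ x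
      = leftImage σ (fun j => (μ (Iv a j)).toReal) i - left (fun j => (μ (Iv a j)).toReal) i := by
  have h1 : Fm μ (iet σ a x) = ∑ j, (if σ j < σ i then (μ (Iv a j)).toReal else
      if j = i then (μ (Set.Iio x ∩ Iv a i)).toReal else 0) := by
    unfold Fm
    conv_lhs => rw [← hinv]
    rw [Measure.map_apply (measurable_iet σ a) measurableSet_Iio,
      measure_eq_sum ha hμ (measurable_iet σ a measurableSet_Iio)]
    apply Finset.sum_congr rfl
    intro j _
    by_cases h2 : σ j < σ i
    · rw [if_pos h2]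
      congr 2
      ext y
      simp only [Set.mem_inter_iff, Set.mem_preimage, Set.mem_Iio, and_iff_right_iff_imp]
      intro hy
      exact (iet_lt_iff σ ha hi hy).2 (Or.inl h2)
    · rw [if_neg h2]
      by_cases h3 : j = i
      · subst h3
        rw [if_pos rfl]
        congr 2
        ext y
        simp only [Set.mem_inter_iff, Set.mem_preimage, Set.mem_Iio]
        constructor
        · rintro ⟨h4, h5⟩
          rcases (iet_lt_iff σ ha hi h5).1 h4 with h6 | h6
          · exact absurd h6 (lt_irrefl _)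
          · exact ⟨h6.2, h5⟩
        · rintro ⟨h4, h5⟩
          exact ⟨(iet_lt_iff σ ha hi h5).2 (Or.inr ⟨rfl, h4⟩), h5⟩
      · rw [if_neg h3]
        have h4 : iet σ a ⁻¹' Set.Iio (iet σ a x) ∩ Iv a j = ∅ := by
          rw [Set.eq_empty_iff_forall_notMem]
          rintro y ⟨h4, h5⟩
          rcases (iet_lt_iff σ ha hi h5).1 h4 with h6 | h6
          · exact h2 h6
          · exact h3 h6.1
        rw [h4, measure_empty, ENNReal.toReal_zero]
  have h2 : Fm μ x = ∑ j, (if j < i then (μ (Iv a j)).toReal else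
      if j = i then (μ (Set.Iio x ∩ Iv a i)).toReal else 0) := by
    unfold Fm
    rw [measure_eq_sum ha hμ measurableSet_Iio]
    apply Finset.sum_congr rfl
    intro j _
    rcases lt_trichotomy j i with h | h | h
    · rw [if_pos h]
      congr 2
      ext y
      simp only [Set.mem_inter_iff, Set.mem_Iio, and_iff_right_iff_imp]
      intro hy
      exact lt_of_lt_of_le hy.2 ((left_add_le ha h).trans hi.1)
    · subst h
      rw [if_neg (lt_irrefl _), if_pos rfl]
    · rw [if_neg (not_lt.2 h.le), if_neg (ne_of_gt h)]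
      have h4 : Set.Iio x ∩ Iv a j = ∅ := by
        rw [Set.eq_empty_iff_forall_notMem]
        rintro y ⟨h4, h5⟩
        have h6 := lt_of_lt_of_le hi.2 ((left_add_le ha h).trans h5.1)
        exact absurd h4 (not_lt.2 h6.le)
      rw [h4, measure_empty, ENNReal.toReal_zero]
  rw [h1, h2]
  unfold leftImage left
  rw [← Finset.sum_sub_distrib, ← Finset.sum_sub_distrib]
  apply Finset.sum_congr rfl
  intro j _
  by_cases h3 : j = i
  · subst h3
    simp only [lt_self_iff_false, if_false, if_true, sub_self]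
  · rw [if_neg h3]

/-- Three vectors in the range of a matrix of rank at most two. -/
lemma dependent_of_rank (A : Matrix (Fin d) (Fin d) ℝ) (hA : A.rank ≤ 2) (u v w : Fin d → ℝ) :
    ∃ g : Fin 3 → ℝ, (∃ k, g k ≠ 0) ∧
      ∀ i, g 0 * (A.mulVec u) i + g 1 * (A.mulVec v) i + g 2 * (A.mulVec w) i = 0 := by
  let R := LinearMap.range A.mulVecLin
  let vs : Fin 3 → R := ![⟨A.mulVec u, u, rfl⟩, ⟨A.mulVec v, v, rfl⟩, ⟨A.mulVec w, w, rfl⟩]
  have hdep : ¬ LinearIndependent ℝ vs := by
    intro h
    have h1 := h.fintype_card_le_finrank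
    rw [Fintype.card_fin] at h1
    have h2 : Module.finrank ℝ R = A.rank := rfl
    omega
  rw [Fintype.not_linearIndependent_iff] at hdep
  obtain ⟨g, hg, k, hk⟩ := hdep
  refine ⟨g, ⟨k, hk⟩, ?_⟩
  intro i
  have h1 := congrArg (fun z : R => (z : Fin d → ℝ) i) hg
  simpa [Fin.sum_univ_three, vs] using h1

lemma mulVec_eq (σ : Equiv.Perm (Fin d)) (v : Fin d → ℝ) (i : Fin d) :
    ((translationMatrix σ).mulVec v) i = leftImage σ v i - left v i := by
  rw [← sum_AZ]
  unfold Matrix.mulVec dotProduct
  apply Finset.sum_congr rfl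
  intro j _
  change translationMatrix σ i j * v j = _
  rw [translationMatrix_eq]

/-- **Unique ergodicity in genus one.** -/
theorem uniquelyErgodic_of_rank (σ : Equiv.Perm (Fin d)) (hσ : IrreduciblePerm σ) (hd : 2 ≤ d)
    (hrank : (translationMatrix σ).rank ≤ 2)
    {a : Fin d → ℝ} (ha : ∀ i, 0 < a i) (hind : Indep a) : UniquelyErgodic σ a := by
  intro μ hprob hμ hinv
  have haper := aperiodic σ hσ hd ha hind
  have hlen : 0 < len a := by
    unfold len
    apply Finset.sum_pos (fun i _ => ha i)
    exact ⟨⟨0, by omega⟩, Finset.mem_univ _⟩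
  have h0mem : (0 : ℝ) ∈ Set.Ico 0 (len a) := ⟨le_rfl, hlen⟩
  set m : Fin d → ℝ := fun j => (μ (Iv a j)).toReal with hm
  obtain ⟨g, ⟨k, hk⟩, hg⟩ := dependent_of_rank (translationMatrix σ) hrank a m (fun j => (tau σ j : ℝ))
  -- the orbit of 0
  have hT := orbit_sum σ ha h0mem (fun y => y) (fun i => leftImage σ a i - left a i)
    (fun y i hy => by
      rw [iet_apply σ ha hy]
      ring)
  have hFm := orbit_sum σ ha h0mem (Fm μ) (fun i => leftImage σ m i - left m i)
    (fun y i hy => Fm_increment ha hμ hinv hy)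
  have hsum : ∀ n, g 0 * ((iet σ a)^[n] 0 - 0) + g 1 * (Fm μ ((iet σ a)^[n] 0) - Fm μ 0)
      + g 2 * (∑ k ∈ Finset.range n, ∑ j, (AZ σ (oidx σ ha h0mem k) j : ℝ) * (tau σ j : ℝ)) = 0 := by
    intro n
    rw [hT n, hFm n, Finset.mul_sum, Finset.mul_sum, Finset.mul_sum, ← Finset.sum_add_distrib,
      ← Finset.sum_add_distrib]
    apply Finset.sum_eq_zero
    intro k _
    have h1 := hg (oidx σ ha h0mem k)
    rw [mulVec_eq, mulVec_eq, mulVec_eq, ← sum_AZ σ (fun j => (tau σ j : ℝ))] at h1
    exact h1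
  have hg2 : g 2 = 0 := by
    by_contra hne
    have hb : ∀ n : ℕ, |g 2| * n ≤ |g 0| * len a + |g 1| * 1 := by
      intro n
      have h1 := hsum n
      have h2 := sum_height σ hσ hd ha h0mem n
      have h3 := iterate_mem σ ha h0mem n
      have h4 := Fm_nonneg μ 0
      have h4' := Fm_le_one μ 0
      have h5 := Fm_nonneg μ ((iet σ a)^[n] 0)
      have h5' := Fm_le_one μ ((iet σ a)^[n] 0)
      set S := ∑ k ∈ Finset.range n, ∑ j, (AZ σ (oidx σ ha h0mem k) j : ℝ) * (tau σ j : ℝ) with hS
      have h6 : |g 2| * S = |g 0 * ((iet σ a)^[n] 0 - 0) + g 1 * (Fm μ ((iet σ a)^[n] 0) - Fm μ 0)| := by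
        have h7 : g 2 * S = -(g 0 * ((iet σ a)^[n] 0 - 0)
            + g 1 * (Fm μ ((iet σ a)^[n] 0) - Fm μ 0)) := by linarith
        rw [← abs_neg (g 0 * ((iet σ a)^[n] 0 - 0) + g 1 * (Fm μ ((iet σ a)^[n] 0) - Fm μ 0)), ← h7,
          abs_mul, abs_of_nonneg ((Nat.cast_nonneg n).trans h2)]
      calc |g 2| * n ≤ |g 2| * S := mul_le_mul_of_nonneg_left h2 (abs_nonneg _)
        _ ≤ |g 0| * |(iet σ a)^[n] 0 - 0| + |g 1| * |Fm μ ((iet σ a)^[n] 0) - Fm μ 0| := by
            rw [h6, ← abs_mul, ← abs_mul]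
            exact abs_add_le _ _
        _ ≤ |g 0| * len a + |g 1| * 1 := by
            apply add_le_add
            · apply mul_le_mul_of_nonneg_left _ (abs_nonneg _)
              rw [sub_zero, abs_of_nonneg h3.1]
              exact h3.2.le
            · apply mul_le_mul_of_nonneg_left _ (abs_nonneg _)
              rw [abs_le]
              constructor <;> linarith
    obtain ⟨n, hn⟩ := exists_nat_gt ((|g 0| * len a + |g 1| * 1) / |g 2|)
    have hpos : 0 < |g 2| := abs_pos.2 hne
    rw [div_lt_iff₀ hpos] at hn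
    have := hb n
    linarith
  have hg1 : g 1 ≠ 0 := by
    intro h1
    have h0 : g 0 ≠ 0 := by
      intro h0
      apply hk
      fin_cases k
      · exact h0
      · exact h1
      · exact hg2
    obtain ⟨i, hi⟩ := exists_idx h0mem
    have h2 := hg i
    rw [h1, hg2, zero_mul, zero_mul, add_zero, add_zero, mulVec_eq] at h2
    have h3 : leftImage σ a i - left a i = 0 := by
      rcases mul_eq_zero.1 h2 with h | h
      · exact absurd h h0
      · exact h
    apply haper 0 h0mem 1 one_pos
    rw [Function.iterate_one, iet_apply σ ha hi, h3, add_zero]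
  -- the function H is invariant
  set κ : ℝ := -(g 0) / g 1 with hκ
  have hHinv : ∀ x ∈ Set.Ico 0 (len a), (fun x => Fm μ x - κ * x) (iet σ a x)
      = (fun x => Fm μ x - κ * x) x := by
    intro x hx
    obtain ⟨i, hi⟩ := exists_idx hx
    have h1 := Fm_increment ha hμ hinv hi
    have h2 := iet_apply σ ha hi
    have h3 := hg i
    rw [hg2, zero_mul, add_zero, mulVec_eq, mulVec_eq] at h3
    have h4 : leftImage σ m i - left m i = κ * (leftImage σ a i - left a i) := by
      rw [hκ]
      field_simp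
      linarith
    have h5 : Fm μ (iet σ a x) = Fm μ x + κ * (leftImage σ a i - left a i) := by
      rw [← h4]
      linarith
    simp only
    rw [h5, h2]
    ring
  have hconst := fun x hx => const_of_invariant σ ha haper (fun x => Fm μ x - κ * x)
    (leftCont_sub _ (leftCont_Fm μ) κ) hHinv (x := x) (y := 0) hx h0mem
  have hF0 : Fm μ 0 = 0 := by
    unfold Fm
    have h1 : μ (Set.Iio 0) = 0 := by
      have h2 : μ (Set.Ico 0 (len a))ᶜ = 0 := by
        rw [prob_compl_eq_zero_iff measurableSet_Ico]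
        exact hμ
      apply measure_mono_null _ h2
      intro z hz hz'
      exact absurd hz (not_lt.2 hz'.1)
    rw [h1, ENNReal.toReal_zero]
  have hFx : ∀ x ∈ Set.Icc 0 (len a), Fm μ x = κ * x := by
    intro x hx
    rcases hx.2.lt_or_eq with h | h
    · have h1 := hconst x ⟨hx.1, h⟩
      simp only [hF0, mul_zero, sub_zero] at h1
      linarith
    · -- the right endpoint, by left continuity
      obtain ⟨u, hu1, hu2, hu3⟩ := exists_seq_strictMono_tendsto' hlen
      have h2 := leftCont_Fm μ u (len a) hu1 hu3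
      have h3 : Tendsto (fun n => κ * u n) atTop (𝓝 (κ * len a)) := hu3.const_mul κ
      have h4 : (fun n => Fm μ (u n)) = fun n => κ * u n := by
        funext n
        have h5 := hconst (u n) ⟨(hu2 n).1.le, (hu2 n).2⟩
        simp only [hF0, mul_zero, sub_zero] at h5
        linarith
      rw [h4] at h2
      rw [h]
      exact tendsto_nhds_unique h2 h3
  have hFlen : Fm μ (len a) = 1 := by
    unfold Fm
    have h1 : μ (Set.Iio (len a)) = 1 := by
      apply le_antisymm prob_le_one
      rw [← hμ]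
      exact measure_mono (fun z hz => hz.2)
    rw [h1, ENNReal.toReal_one]
  have hκlen : κ * len a = 1 := by
    rw [← hFx (len a) ⟨hlen.le, le_rfl⟩]
    exact hFlen
  have hκ' : κ = (len a)⁻¹ := by
    field_simp
    exact hκlen
  -- comparison of the two measures
  have hfin : IsFiniteMeasure ((ENNReal.ofReal (len a))⁻¹ • volume.restrict (Set.Ico 0 (len a))) := by
    refine ⟨?_⟩
    rw [Measure.smul_apply, Measure.restrict_apply MeasurableSet.univ, Set.univ_inter,
      Real.volume_Ico, sub_zero, smul_eq_mul,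
      ENNReal.inv_mul_cancel (by simpa using hlen) ENNReal.ofReal_ne_top]
    exact ENNReal.one_lt_top
  have key : ∀ x, (μ (Set.Iio x)) = ((ENNReal.ofReal (len a))⁻¹ • volume.restrict (Set.Ico 0 (len a)))
      (Set.Iio x) := by
    intro x
    have h1 : μ (Set.Iio x) = ENNReal.ofReal (Fm μ x) := by
      unfold Fm
      rw [ENNReal.ofReal_toReal (measure_ne_top _ _)]
    rw [h1, Measure.smul_apply, Measure.restrict_apply measurableSet_Iio, smul_eq_mul]
    have h2 : Set.Iio x ∩ Set.Ico 0 (len a) = Set.Ico 0 (min x (len a)) := by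
      ext z
      simp only [Set.mem_inter_iff, Set.mem_Iio, Set.mem_Ico, lt_min_iff]
      tauto
    rw [h2, Real.volume_Ico, sub_zero]
    rcases le_total x 0 with hx | hx
    · have h3 : Fm μ x = 0 := by
        apply le_antisymm _ (Fm_nonneg μ x)
        rw [← hF0]
        exact Fm_mono μ hx
      rw [h3, ENNReal.ofReal_of_nonpos (le_trans (min_le_left _ _) hx), mul_zero,
        ENNReal.ofReal_zero]
    · have h3 : Fm μ x = κ * min x (len a) := by
        rcases le_total x (len a) with hx' | hx'
        · rw [min_eq_left hx']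
          exact hFx x ⟨hx, hx'⟩
        · rw [min_eq_right hx', hκlen]
          apply le_antisymm (Fm_le_one μ x)
          rw [← hFlen]
          exact Fm_mono μ hx'
      rw [h3, hκ', ENNReal.ofReal_mul (by positivity), ENNReal.ofReal_inv_of_pos hlen]
  apply Measure.ext_of_Ici
  intro x
  have h1 : Set.Ici x = (Set.Iio x)ᶜ := by
    ext z
    simp
  rw [h1, measure_compl measurableSet_Iio (measure_ne_top _ _),
    measure_compl measurableSet_Iio (measure_ne_top _ _), key x]
  congr 1
  rw [measure_univ, Measure.smul_apply, Measure.restrict_apply MeasurableSet.univ, Set.univ_inter,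
      Real.volume_Ico, sub_zero, smul_eq_mul,
      ENNReal.inv_mul_cancel (by simpa using hlen) ENNReal.ofReal_ne_top]

end

end Pool.Agent.H51.Iet
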