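import Pool.Agent.H51.IetConst

set_option autoImplicit false

namespace Pool.Agent.H51.Iet

open MeasureTheory Filter Topology

noncomputable section

variable {d : ℕ}

/-- The integer version of the translation matrix. -/
def AZ (σ : Equiv.Perm (Fin d)) (i j : Fin d) : ℤ :=
  (if σ j < σ i then 1 else 0) - (if j < i then 1 else 0)

lemma translationMatrix_eq (σ : Equiv.Perm (Fin d)) (i j : Fin d) :
    translationMatrix σ i j = (AZ σ i j : ℝ) := by
  unfold translationMatrix AZ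
  push_cast
  rfl

lemma sum_AZ (σ : Equiv.Perm (Fin d)) (a : Fin d → ℝ) (i : Fin d) :
    ∑ j, (AZ σ i j : ℝ) * a j = leftImage σ a i - left a i := by
  unfold leftImage left AZ
  rw [← Finset.sum_sub_distrib]
  apply Finset.sum_congr rfl
  intro j _
  push_cast
  split_ifs <;> ring

/-- The heights: `j - σ j`. -/
def tau (σ : Equiv.Perm (Fin d)) (j : Fin d) : ℤ := (j : ℕ) - (σ j : ℕ)

/-- Sums over sets of indices of the same size as an initial segment. -/
lemma sum_ge_of_card (s : Finset (Fin d)) (i : Fin d) (hs : s.card = (i : ℕ)) :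
    (∑ k ∈ Finset.Iio i, ((k : ℕ) : ℤ)) + ((s \ Finset.Iio i).card : ℤ) ≤ ∑ k ∈ s, ((k : ℕ) : ℤ) := by
  have h1 : (s \ Finset.Iio i).card = (Finset.Iio i \ s).card := by
    have h2 := Finset.card_sdiff_add_card_inter s (Finset.Iio i)
    have h3 := Finset.card_sdiff_add_card_inter (Finset.Iio i) s
    rw [Finset.inter_comm] at h3
    rw [Fin.card_Iio] at h3
    omega
  have h4 : ∑ k ∈ s, ((k : ℕ) : ℤ) = ∑ k ∈ s \ Finset.Iio i, ((k : ℕ) : ℤ)
      + ∑ k ∈ s ∩ Finset.Iio i, ((k : ℕ) : ℤ) := by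
    rw [← Finset.sum_union (Finset.disjoint_sdiff_inter s _), Finset.sdiff_union_inter]
  have h5 : ∑ k ∈ Finset.Iio i, ((k : ℕ) : ℤ) = ∑ k ∈ Finset.Iio i \ s, ((k : ℕ) : ℤ)
      + ∑ k ∈ s ∩ Finset.Iio i, ((k : ℕ) : ℤ) := by
    rw [Finset.inter_comm, ← Finset.sum_union (Finset.disjoint_sdiff_inter _ s),
      Finset.sdiff_union_inter]
  rw [h4, h5]
  have h6 : ((s \ Finset.Iio i).card : ℤ) * (i : ℕ) ≤ ∑ k ∈ s \ Finset.Iio i, ((k : ℕ) : ℤ) := by
    rw [← nsmul_eq_mul, ← Finset.sum_const]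
    apply Finset.sum_le_sum
    intro k hk
    rw [Finset.mem_sdiff, Finset.mem_Iio, not_lt, Fin.le_def] at hk
    exact_mod_cast hk.2
  have h7 : ∑ k ∈ Finset.Iio i \ s, ((k : ℕ) : ℤ) ≤ ((s \ Finset.Iio i).card : ℤ) * ((i : ℕ) - 1) := by
    rw [h1, ← nsmul_eq_mul, ← Finset.sum_const]
    apply Finset.sum_le_sum
    intro k hk
    rw [Finset.mem_sdiff, Finset.mem_Iio, Fin.lt_def] at hk
    have h8 := hk.1
    omega
  nlinarith

lemma sum_tau_image (σ : Equiv.Perm (Fin d)) (i : Fin d) :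
    0 ≤ -∑ j, (if j < i then tau σ j else 0) ∧
    (-∑ j, (if j < i then tau σ j else 0) = 0 → ∀ j, j < i → σ j < i) := by
  have h0 : ∑ j, (if j < i then tau σ j else 0) = ∑ j ∈ Finset.Iio i, tau σ j := by
    rw [← Finset.sum_filter]
    congr 1
    ext j
    simp
  let s : Finset (Fin d) := (Finset.Iio i).map σ.toEmbedding
  have hs : s.card = (i : ℕ) := by
    rw [Finset.card_map, Fin.card_Iio]
  have h1 := sum_ge_of_card s i hs
  have h2 : ∑ k ∈ s, ((k : ℕ) : ℤ) = ∑ j ∈ Finset.Iio i, ((σ j : ℕ) : ℤ) := by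
    rw [Finset.sum_map]
    rfl
  have h3 : ∑ j ∈ Finset.Iio i, tau σ j
      = ∑ j ∈ Finset.Iio i, ((j : ℕ) : ℤ) - ∑ j ∈ Finset.Iio i, ((σ j : ℕ) : ℤ) := by
    unfold tau
    rw [Finset.sum_sub_distrib]
  rw [h0, h3]
  rw [h2] at h1
  constructor
  · have : (0 : ℤ) ≤ ((s \ Finset.Iio i).card : ℤ) := by positivity
    linarith
  · intro h4 j hj
    have h5 : ((s \ Finset.Iio i).card : ℤ) ≤ 0 := by linarith
    have h6 : (s \ Finset.Iio i).card = 0 := by
      have : (s \ Finset.Iio i).card ≤ 0 := by exact_mod_cast h5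
      omega
    rw [Finset.card_eq_zero, Finset.sdiff_eq_empty_iff_subset] at h6
    have h7 : σ j ∈ s := Finset.mem_map_of_mem _ (Finset.mem_Iio.2 hj)
    exact Finset.mem_Iio.1 (h6 h7)

lemma sum_tau_preimage (σ : Equiv.Perm (Fin d)) (i : Fin d) :
    0 ≤ ∑ j, (if σ j < σ i then tau σ j else 0) := by
  have h0 : ∑ j, (if σ j < σ i then tau σ j else 0)
      = -∑ j, (if j < σ i then tau σ.symm j else 0) := by
    rw [← Equiv.sum_comp σ (fun j => if j < σ i then tau σ.symm j else 0), ← Finset.sum_neg_distrib]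
    apply Finset.sum_congr rfl
    intro j _
    unfold tau
    simp only [Equiv.symm_apply_apply]
    split_ifs <;> ring
  rw [h0]
  exact (sum_tau_image σ.symm (σ i)).1

/-- The heights of the standard suspension are positive. -/
lemma height_pos (σ : Equiv.Perm (Fin d)) (hσ : IrreduciblePerm σ) (hd : 2 ≤ d) (i : Fin d) :
    1 ≤ ∑ j, AZ σ i j * tau σ j := by
  have h0 : ∑ j, AZ σ i j * tau σ j
      = ∑ j, (if σ j < σ i then tau σ j else 0) + -∑ j, (if j < i then tau σ j else 0) := by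
    rw [← Finset.sum_neg_distrib, ← Finset.sum_add_distrib]
    apply Finset.sum_congr rfl
    intro j _
    unfold AZ
    split_ifs <;> ring
  have h1 := sum_tau_preimage σ i
  have h2 := sum_tau_image σ i
  rw [h0]
  by_contra hcon
  push Not at hcon
  have h3 : -∑ j, (if j < i then tau σ j else 0) = 0 := by
    have := h2.1
    omega
  have h4 : ∑ j, (if σ j < σ i then tau σ j else 0) = 0 := by
    have := h2.1
    omega
  -- i must be the first index
  have hi0 : (i : ℕ) = 0 := by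
    by_contra hne
    apply hσ i (Nat.pos_of_ne_zero hne) i.2
    intro j hj
    exact h2.2 h3 j hj
  -- and its image as well
  have h5 : ∑ j, (if σ j < σ i then tau σ j else 0)
      = -∑ j, (if j < σ i then tau σ.symm j else 0) := by
    rw [← Equiv.sum_comp σ (fun j => if j < σ i then tau σ.symm j else 0), ← Finset.sum_neg_distrib]
    apply Finset.sum_congr rfl
    intro j _
    unfold tau
    simp only [Equiv.symm_apply_apply]
    split_ifs <;> ring
  have hs0 : (σ i : ℕ) = 0 := by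
    by_contra hne
    have h6 := (sum_tau_image σ.symm (σ i)).2 (by rw [← h5]; exact h4)
    apply hσ (σ i) (Nat.pos_of_ne_zero hne) (σ i).2
    -- the inverse maps the initial segment into itself, hence so does σ
    let s : Finset (Fin d) := (Finset.Iio (σ i)).map σ.symm.toEmbedding
    have hsub : s ⊆ Finset.Iio (σ i) := by
      intro k hk
      rw [Finset.mem_map] at hk
      obtain ⟨j, hj, rfl⟩ := hk
      exact Finset.mem_Iio.2 (h6 j (Finset.mem_Iio.1 hj))
    have heq : s = Finset.Iio (σ i) := by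
      apply Finset.eq_of_subset_of_card_le hsub
      rw [Finset.card_map]
    intro j hj
    have hj' : j ∈ s := by
      rw [heq]
      exact Finset.mem_Iio.2 hj
    rw [Finset.mem_map] at hj'
    obtain ⟨k, hk, hkj⟩ := hj'
    have : σ j = k := by
      rw [← hkj]
      exact σ.apply_symm_apply k
    rw [this]
    exact Fin.lt_def.1 (Finset.mem_Iio.1 hk)
  apply hσ 1 one_pos (by omega)
  intro j hj
  have hj0 : (j : ℕ) = 0 := by omega
  have hji : j = i := Fin.ext (by omega)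
  rw [hji, hs0]
  exact one_pos

/-- Rational independence. -/
def Indep (a : Fin d → ℝ) : Prop := ∀ c : Fin d → ℤ, ∑ j, (c j : ℝ) * a j = 0 → c = 0

/-- The index of a point. -/
def idx (a : Fin d → ℝ) (x : ℝ) (hx : x ∈ Set.Ico 0 (len a)) : Fin d := (exists_idx hx).choose

lemma idx_spec (a : Fin d → ℝ) (x : ℝ) (hx : x ∈ Set.Ico 0 (len a)) :
    x ∈ Set.Ico (left a (idx a x hx)) (left a (idx a x hx) + a (idx a x hx)) :=
  (exists_idx hx).choose_spec

/-- The index of the k-th point of an orbit. -/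
def oidx (σ : Equiv.Perm (Fin d)) {a : Fin d → ℝ} (ha : ∀ i, 0 < a i) {x : ℝ}
    (hx : x ∈ Set.Ico 0 (len a)) (k : ℕ) : Fin d := idx a _ (iterate_mem σ ha hx k)

/-- Displacements along an orbit. -/
lemma orbit_sum (σ : Equiv.Perm (Fin d)) {a : Fin d → ℝ} (ha : ∀ i, 0 < a i) {x : ℝ}
    (hx : x ∈ Set.Ico 0 (len a)) (F : ℝ → ℝ) (t : Fin d → ℝ)
    (hF : ∀ (y : ℝ) (i : Fin d), y ∈ Set.Ico (left a i) (left a i + a i) →
      F (iet σ a y) - F y = t i) (n : ℕ) :
    F ((iet σ a)^[n] x) - F x = ∑ k ∈ Finset.range n, t (oidx σ ha hx k) := by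
  induction n with
  | zero => simp
  | succ n ih =>
    rw [Finset.sum_range_succ, ← ih, Function.iterate_succ_apply']
    have h := hF ((iet σ a)^[n] x) (oidx σ ha hx n) (idx_spec a _ (iterate_mem σ ha hx n))
    linarith

lemma sum_height (σ : Equiv.Perm (Fin d)) (hσ : IrreduciblePerm σ) (hd : 2 ≤ d)
    {a : Fin d → ℝ} (ha : ∀ i, 0 < a i) {x : ℝ} (hx : x ∈ Set.Ico 0 (len a)) (n : ℕ) :
    (n : ℝ) ≤ ∑ k ∈ Finset.range n, ∑ j, (AZ σ (oidx σ ha hx k) j : ℝ) * (tau σ j : ℝ) := by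
  have h1 : (n : ℝ) = ∑ _k ∈ Finset.range n, (1 : ℝ) := by simp
  rw [h1]
  apply Finset.sum_le_sum
  intro k _
  have h := height_pos σ hσ hd (oidx σ ha hx k)
  exact_mod_cast h

/-- No periodic points. -/
lemma aperiodic (σ : Equiv.Perm (Fin d)) (hσ : IrreduciblePerm σ) (hd : 2 ≤ d)
    {a : Fin d → ℝ} (ha : ∀ i, 0 < a i) (hind : Indep a) :
    ∀ x ∈ Set.Ico 0 (len a), ∀ m, 0 < m → (iet σ a)^[m] x ≠ x := by
  intro x hx m hm hper
  have h1 := orbit_sum σ ha hx (fun y => y) (fun i => leftImage σ a i - left a i)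
    (fun y i hy => by
      rw [iet_apply σ ha hy]
      ring) m
  rw [hper, sub_self] at h1
  have h2 : ∑ j, ((∑ k ∈ Finset.range m, AZ σ (oidx σ ha hx k) j : ℤ) : ℝ) * a j = 0 := by
    rw [h1]
    push_cast
    simp_rw [Finset.sum_mul]
    rw [Finset.sum_comm]
    apply Finset.sum_congr rfl
    intro k _
    exact sum_AZ σ a _
  have h3 := hind _ h2
  have h4 : ∑ k ∈ Finset.range m, ∑ j, (AZ σ (oidx σ ha hx k) j : ℝ) * (tau σ j : ℝ) = 0 := by
    rw [Finset.sum_comm]
    apply Finset.sum_eq_zero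
    intro j _
    rw [← Finset.sum_mul]
    have h5 := congrFun h3 j
    simp only [Pi.zero_apply] at h5
    have h6 : (∑ k ∈ Finset.range m, (AZ σ (oidx σ ha hx k) j : ℝ)) = 0 := by exact_mod_cast h5
    rw [h6, zero_mul]
  have h7 := sum_height σ hσ hd ha hx m
  rw [h4] at h7
  have : (0 : ℝ) < m := by exact_mod_cast hm
  linarith

end

end Pool.Agent.H51.Iet
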